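import Pool.Agent.Work.MP_db9399_da.Frame2
import Pool.Agent.Work.MP_db9399_iv_helper72.Local3

/-!
# MP_db9399, all scales: the cluster side, version 3.2 (owner helper62)

`G` is `d`-regular of any order, its bounded near-closed parts are cut into pieces of the types K, N,
B (`Pcs V N` of DENSE-ALL, `N` unbounded); `P.V0` = all other vertices. No precoloured matching.

Order of the blocks (FRAME v1 of helper2, note 1596 of helper38, messages of Dec 3):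
* DECX (helper26): `PcD`, pieces without labels; LABC: `PcL`, labels; `PcX` = both.
* outside stage, OUTX (helper72): `PreX`. All edges outside the bulk graphs are coloured, except those
  between light vertices of pieces of type K; own colours of `V0` except the COVERING vertices
  (`Cvr n β w`: `w ∈ V0` misses less than `d / 200` vertices of the side `β` of the piece `n`).
* RGX (helper38): own colours of the covering vertices: `RgX`.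
* SELP (helper38): every piece of type N, B chooses its palettes `Qn n j`, `P2n n`: `SelX`.
* OWNX (helper62): own colours of the pieces of type N: `OwnX`.
* OCB (helper1): class-preserving recolouring of the edges between vertices of type B, own colours
  `c0`, `c1`, `T1`, `T2` of the pieces of type B: `OcbX`.
* BX: all pieces of type N and B are finished (LOCB3, LOCN3 of helper72): `PosX`.
* KX: all pieces of type K are finished (`MP_db9399_xq.Stmt_KQ`): `TotX`.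

Constants. Uniform: `C` sizes of clusters, `M` pieces in a cluster, `g` types K / N, `z` absorption,
`θk`, `θ'`, `η`, `τ`, `e` for the pieces of type K (as in KQ). Per scale (`Scl`): `ρ`, `π`, `κ`, `ε`,
`ζ`, `θ`, in this order, all small compared with the uniform ones. `a` is polynomially small.
-/

set_option autoImplicit false

namespace Pool.Agent.Work.MP_db9399_xf

open Finset Classical
open Pool.Agent.Work.MP_db9399_all (nb)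
open Pool.Agent.Work.MP_db9399_nc (nn)
open Pool.Agent.Work.MP_db9399_lt (us)
open Pool.Agent.Work.MP_db9399_dn (Tot)
open Pool.Agent.Work.MP_db9399_da

universe u

/-- Constants of a scale: `ρ` cuts, `π`, `κ` sizes of the small palettes, `ε` loads, sums and labels,
`ζ` thin degrees, `θ` sums of thin degrees. -/
structure Scl where
  ρ : ℝ
  π : ℝ
  κ : ℝ
  ε : ℝ
  ζ : ℝ
  θ : ℝ

/-- threshold functions for the constants of a scale -/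
structure Thr where
  π0 : ℝ → ℝ
  κ0 : ℝ → ℝ → ℝ
  ε0 : ℝ → ℝ → ℝ → ℝ
  ζ0 : ℝ → ℝ → ℝ → ℝ → ℝ
  θ0 : ℝ → ℝ → ℝ → ℝ → ℝ → ℝ

/-- the thresholds are positive -/
structure Thr.Pos (T : Thr) : Prop where
  π0 : ∀ ρ, 0 < ρ → 0 < T.π0 ρ
  κ0 : ∀ ρ π, 0 < ρ → 0 < π → 0 < T.κ0 ρ π
  ε0 : ∀ ρ π κ, 0 < ρ → 0 < π → 0 < κ → 0 < T.ε0 ρ π κ
  ζ0 : ∀ ρ π κ ε, 0 < ρ → 0 < π → 0 < κ → 0 < ε → 0 < T.ζ0 ρ π κ ε
  θ0 : ∀ ρ π κ ε ζ, 0 < ρ → 0 < π → 0 < κ → 0 < ε → 0 < ζ → 0 < T.θ0 ρ π κ ε ζ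

/-- the constants are positive and below the thresholds -/
structure Adm (T : Thr) (s : Scl) : Prop where
  ρ : 0 < s.ρ ∧ s.ρ ≤ 1
  π : 0 < s.π ∧ s.π ≤ T.π0 s.ρ
  κ : 0 < s.κ ∧ s.κ ≤ T.κ0 s.ρ s.π
  ε : 0 < s.ε ∧ s.ε ≤ T.ε0 s.ρ s.π s.κ
  ζ : 0 < s.ζ ∧ s.ζ ≤ T.ζ0 s.ρ s.π s.κ s.ε
  θ : 0 < s.θ ∧ s.θ ≤ T.θ0 s.ρ s.π s.κ s.ε s.ζ

/-- The palettes: `C j` forbidden at the third `j` of pieces of type K, `Q i` at the part `i` of
all pieces of type N, B (the `Qn n i` inside `Q i` are selected later). -/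
structure PalX where
  C : Fin 3 → Finset ℕ
  Q : Bool → Finset ℕ

/-- properties of the palettes; `πk` = size of the `C j` (between `1 / 4` and `1 / 3`), the size of
the `Q i` is `(1 - 3 πk) / 100` -/
structure PalXP (πk : ℝ) (A : PalX) (d : ℕ) : Prop where
  Clt : ∀ j, A.C j ⊆ range (d + 2)
  Cdis : ∀ i j, i ≠ j → Disjoint (A.C i) (A.C j)
  Cc : ∀ j, πk * d ≤ ((A.C j).card : ℝ) ∧ ((A.C j).card : ℝ) ≤ πk * d + 1
  Qlt : ∀ i, A.Q i ⊆ range (d + 2)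
  QQ : Disjoint (A.Q false) (A.Q true)
  QC : ∀ i j, Disjoint (A.Q i) (A.C j)
  Qc : ∀ i, (1 - 3 * πk) / 100 * d ≤ ((A.Q i).card : ℝ) ∧
    ((A.Q i).card : ℝ) ≤ (1 - 3 * πk) / 100 * d + 1

/-- The pieces with their scales `sc`, clusters `cq` (numbers) and heavy members `Hv`. -/
structure XD (V : Type u) (N J : ℕ) where
  P : Pcs V N
  sc : Fin N → Fin J
  cq : V → Option ℕ
  Hv : Finset V

section defs
variable {V : Type u} {N J : ℕ}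

/-- `v` is in a piece of type `T` -/
def InT (X : XD V N J) (T : Ty) (v : V) : Prop := v ∉ X.P.V0 ∧ X.P.ty (X.P.pc v) = T

/-- `v` gets its own colour in the outside stage -/
def Owd (X : XD V N J) (v : V) : Prop := v ∈ X.P.V0 ∨ InT X Ty.N v

/-- the light vertices of the pieces of type K -/
def Lk (X : XD V N J) (v : V) : Prop := InT X Ty.K v ∧ v ∉ X.Hv

/-- the edges coloured in the outside stage: all edges outside the bulk except those between light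
vertices of pieces of type K -/
def xt (G : SimpleGraph V) (X : XD V N J) : SimpleGraph V where
  Adj v w := (thin G X.P).Adj v w ∧ ¬ (Lk X v ∧ Lk X w)
  symm := ⟨fun _ _ h => ⟨h.1.symm, fun h' => h.2 ⟨h'.2, h'.1⟩⟩⟩
  loopless := ⟨fun v h => (thin G X.P).loopless.irrefl v h.1⟩

/-- the edges coloured before the pieces of type K: all edges with an end outside the pieces of type
K and the edges between different pieces of type K with a heavy end -/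
def xo (G : SimpleGraph V) (X : XD V N J) : SimpleGraph V where
  Adj v w := G.Adj v w ∧ ¬ (InT X Ty.K v ∧ InT X Ty.K w ∧
    (X.P.pc v = X.P.pc w ∨ (v ∉ X.Hv ∧ w ∉ X.Hv)))
  symm := ⟨fun _ _ h => ⟨h.1.symm, fun h' => h.2 ⟨h'.2.1, h'.1,
    h'.2.2.imp (fun e => e.symm) fun e => ⟨e.2, e.1⟩⟩⟩⟩
  loopless := ⟨fun v h => G.loopless.irrefl v h.1⟩

variable [Fintype V]

/-- colours of the edges of `T` at `v` -/
noncomputable def Ft (T : SimpleGraph V) (t : V → V → ℕ) (v : V) : Finset ℕ := (nb T v).image (t v)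

/-- the same on the piece `n` -/
noncomputable def Fp (T : SimpleGraph V) (X : XD V N J) (t : V → V → ℕ) (n : Fin N) :
    Ts X.P n → Finset ℕ := fun v => Ft T t v.1

/-- the same with the own colours (type N) -/
noncomputable def Fpo (T : SimpleGraph V) (X : XD V N J) (t : V → V → ℕ) (c : V → ℕ) (n : Fin N) :
    Ts X.P n → Finset ℕ := fun v => insert (c v.1) (Ft T t v.1)

/-- `w` covers the side `β` of the piece `n` of type B -/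
def Cvr (G : SimpleGraph V) (X : XD V N J) (d : ℕ) (n : Fin N) (β : Bool) (w : V) : Prop :=
  w ∈ X.P.V0 ∧ X.P.ty n = Ty.B ∧ ((sV X.P n β \ nb G w).card : ℝ) < (d : ℝ) / 200

/-- covering vertices -/
def Cov (G : SimpleGraph V) (X : XD V N J) (d : ℕ) (w : V) : Prop := ∃ n β, Cvr G X d n β w

/-- the vertices which get their own colour in the outside stage -/
def Ow (G : SimpleGraph V) (X : XD V N J) (d : ℕ) (v : V) : Prop := v ∈ X.P.V0 ∧ ¬ Cov G X d v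

/-- own colours of the covering vertices of the piece `n` -/
noncomputable def Cvc (G : SimpleGraph V) (X : XD V N J) (d : ℕ) (c : V → ℕ) (n : Fin N) :
    Finset ℕ := (univ.filter (fun w => ∃ β, Cvr G X d n β w)).image c

/-- the quarter `β`, `i` of the piece `n` -/
noncomputable def qV (X : XD V N J) (n : Fin N) (β i : Bool) : Finset V :=
  (sV X.P n β).filter (fun v => X.P.pt v = i)

/-- pieces of the same cluster -/
def SmC (X : XD V N J) (n m : Fin N) : Prop := ∃ v w, v ∉ X.P.V0 ∧ w ∉ X.P.V0 ∧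
  X.P.pc v = n ∧ X.P.pc w = m ∧ X.cq v = X.cq w

/-- T-edges: thin edges between vertices of pieces of type B -/
def Te (G : SimpleGraph V) (X : XD V N J) (v w : V) : Prop :=
  (thin G X.P).Adj v w ∧ InT X Ty.B v ∧ InT X Ty.B w

/-- number of the T-edges from `q` to `q'` with `b` free at both ends and colour in `D` -/
noncomputable def nT (G : SimpleGraph V) (X : XD V N J) (t : V → V → ℕ) (b : ℕ)
    (q q' : Finset V) (D : Finset ℕ) : ℕ :=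
  ((q ×ˢ q').filter (fun p => Te G X p.1 p.2 ∧ b ∉ Ft (xt G X) t p.1 ∧ b ∉ Ft (xt G X) t p.2 ∧
    t p.1 p.2 ∈ D)).card

/-- The pieces, without labels (parts, thirds, sides of the types N, K). -/
structure PcD (C g z θk θ' η a : ℝ) (M : ℕ) (S : Fin J → Scl) (G : SimpleGraph V) (d : ℕ)
    (X : XD V N J) : Prop where
  reg : ∀ v, (nb G v).card = d
  emp : ∀ n, X.P.ty n = Ty.E → IsEmpty (Ts X.P n)
  -- clusters
  cln : ∀ v, v ∉ X.P.V0 → X.cq v ≠ none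
  clp : ∀ v w, v ∉ X.P.V0 → w ∉ X.P.V0 → X.P.pc v = X.P.pc w → X.cq v = X.cq w
  scq : ∀ v w, v ∉ X.P.V0 → w ∉ X.P.V0 → X.cq v = X.cq w →
    X.sc (X.P.pc v) = X.sc (X.P.pc w)
  clc : ∀ k : ℕ, ((univ.filter (fun v => X.cq v = some k)).card : ℝ) ≤ C * d
  npc : ∀ k : ℕ, ((univ.filter (fun n => ∃ v, v ∉ X.P.V0 ∧ X.P.pc v = n ∧
    X.cq v = some k)).card) ≤ M
  out : ∀ v, v ∉ X.P.V0 → v ∉ X.Hv → (((nb G v).filter (fun w => X.cq w ≠ X.cq v)).card : ℝ) ≤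
    a * d
  hvc : ∀ n, X.P.ty n = Ty.N ∨ X.P.ty n = Ty.B → ((pV X.P n ∩ X.Hv).card : ℝ) ≤ a * d
  xs : ∀ n, ((∑ v ∈ pV X.P n, ((nb G v).filter (fun w => X.cq w ≠ X.cq v)).card : ℕ) : ℝ) ≤
    a * (d : ℝ) ^ 2
  v0c : ∀ v, v ∉ X.P.V0 → ((univ.filter (fun w => w ∈ X.P.V0 ∧ X.cq w = X.cq v)).card : ℝ) ≤
    (S (X.sc (X.P.pc v))).θ * d
  -- type K (spots)
  kL : ∀ n, X.P.ty n = Ty.K → (1 - θk) * d ≤ ((pV X.P n).card : ℝ)
  kU : ∀ n, X.P.ty n = Ty.K → ((pV X.P n).card : ℝ) ≤ (1 + θk) * d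
  kd : ∀ v, InT X Ty.K v → (1 - θk) * d ≤ ((nb G v ∩ pV X.P (X.P.pc v)).card : ℝ)
  ki : ∀ v, InT X Ty.K v → ((pV X.P (X.P.pc v) \ nb G v).card : ℝ) ≤ θk * d
  kl : ∀ v, Lk X v → (1 - θ') * d ≤ ((nb G v ∩ pV X.P (X.P.pc v)).card : ℝ)
  ks : ∀ n, X.P.ty n = Ty.K →
    ∑ v ∈ pV X.P n, ((d : ℝ) - (nb G v ∩ pV X.P n).card) ≤ η * d * (pV X.P n).card
  kh : ∀ n, X.P.ty n = Ty.K → ((pV X.P n ∩ X.Hv).card : ℝ) ≤ η * (pV X.P n).card
  kz : ∀ n, X.P.ty n = Ty.K → ∀ w, w ∉ pV X.P n → z * d ≤ ((pV X.P n \ nb G w).card : ℝ)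
  -- types N and B
  thd : ∀ v, InT X Ty.N v ∨ InT X Ty.B v →
    ((nb (thin G X.P) v).card : ℝ) ≤ (S (X.sc (X.P.pc v))).ζ * d
  ths : ∀ n, X.P.ty n = Ty.N ∨ X.P.ty n = Ty.B →
    ∑ v ∈ pV X.P n, ((nb (thin G X.P) v).card : ℝ) ≤ (S (X.sc n)).θ * (d : ℝ) ^ 2
  nL : ∀ n, X.P.ty n = Ty.N → (1 + g / 2) * d ≤ (Fintype.card (Ts X.P n) : ℝ)
  n4 : ∀ n, X.P.ty n = Ty.N → 4 ∣ Fintype.card (Ts X.P n)
  bE : ∀ n, X.P.ty n = Ty.B → (sV X.P n false).card = (sV X.P n true).card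
  cut : ∀ n, X.P.ty n = Ty.N ∨ X.P.ty n = Ty.B → ∀ T : Finset (Ts X.P n),
    (S (X.sc n)).ρ * T.card * (univ \ T).card ≤ ∑ v ∈ T, ((nb (bk G X.P n) v \ T).card : ℝ)
  nbi : ∀ n, X.P.ty n = Ty.N → ∀ T : Finset (Ts X.P n), (S (X.sc n)).ρ * (d : ℝ) ^ 2 ≤
    ∑ v ∈ T, ((nb (bk G X.P n) v ∩ T).card : ℝ) +
      ∑ v ∈ univ \ T, ((nb (bk G X.P n) v \ T).card : ℝ)
  bN : ∀ n, X.P.ty n = Ty.B → (pV X.P n).Nonempty
  -- rigid vertices: adjacent to almost all vertices of a side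
  rgT : ∀ w n β, X.P.rg w = some (n, β) → w ∈ X.P.V0 ∧ X.P.ty n = Ty.B
  rgd : ∀ w n β, X.P.rg w = some (n, β) →
    ((nb G w \ sV X.P n β).card : ℝ) ≤ 2 * (S (X.sc n)).ζ * d ∧
      ((sV X.P n β \ nb G w).card : ℝ) ≤ 2 * (S (X.sc n)).ζ * d
  rgp : ∀ n, X.P.ty n = Ty.B → (univ.filter (fun w => X.P.rg w = some (n, false))).card ≤
    (univ.filter (fun w => X.P.rg w = some (n, true))).card
  rgc : ∀ n, X.P.ty n = Ty.B → ((univ.filter (fun w => X.P.rg w = some (n, false))).card : ℝ) ≤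
    a * d
  rgm : ∀ n, X.P.ty n = Ty.B → ∀ w, w ∉ pV X.P n → ∀ β, X.P.rg w ≠ some (n, β) →
    (S (X.sc n)).ζ / 8 * d ≤ ((sV X.P n β \ nb G w).card : ℝ)

/-- The labels. `thq`: the thin edges are balanced between the quarters; `lbw`: the missed vertices
of a side are divided between its quarters. -/
structure PcL (S : Fin J → Scl) (η : ℝ) (G : SimpleGraph V) (d : ℕ) (X : XD V N J) : Prop where
  kC : ∀ n, X.P.ty n = Ty.K → ∀ i l,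
    |((MP_db9399_lt.cell (thn X.P n) (sdn X.P n) i l).card : ℝ) -
      (Fintype.card (Ts X.P n) : ℝ) / 6| ≤ η * d
  cutP : ∀ n, X.P.ty n = Ty.N ∨ X.P.ty n = Ty.B → ∀ i, ∀ T ⊆ prt (ptn X.P n) i,
    (S (X.sc n)).ρ * T.card * (prt (ptn X.P n) i \ T).card ≤
      ∑ v ∈ T, (((nb (bk G X.P n) v \ T) ∩
        qtr (sdn X.P n) (ptn X.P n) (!(sdn X.P n v)) i).card : ℝ)
  nS : ∀ n, X.P.ty n = Ty.N → ∀ β i,
    4 * (qtr (sdn X.P n) (ptn X.P n) β i).card = Fintype.card (Ts X.P n)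
  nD : ∀ n, X.P.ty n = Ty.N → ∀ v β i,
    |((nb (bk G X.P n) v ∩ qtr (sdn X.P n) (ptn X.P n) β i).card : ℝ) - d / 4| ≤
      (S (X.sc n)).ε * d
  bB : ∀ n, X.P.ty n = Ty.B → ∀ i, (qtr (sdn X.P n) (ptn X.P n) false i).card =
    (qtr (sdn X.P n) (ptn X.P n) true i).card
  bS : ∀ n, X.P.ty n = Ty.B → ∀ i, (qtr (sdn X.P n) (ptn X.P n) false i).card ≤
    (qtr (sdn X.P n) (ptn X.P n) false (!i)).card + 1
  bD : ∀ n, X.P.ty n = Ty.B → ∀ v i,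
    |((nb (bk G X.P n) v ∩ prt (ptn X.P n) i).card : ℝ) - d / 2| ≤ (S (X.sc n)).ε * d
  thq : ∀ n, X.P.ty n = Ty.N ∨ X.P.ty n = Ty.B → ∀ i,
    |∑ v ∈ qV X n false i, ((nb (thin G X.P) v).card : ℝ) -
      ∑ v ∈ qV X n true i, ((nb (thin G X.P) v).card : ℝ)| ≤ (S (X.sc n)).ε * d
  lbw : ∀ n, X.P.ty n = Ty.B → ∀ w, w ∉ pV X.P n → ∀ β i,
    (S (X.sc n)).ζ / 8 * d ≤ ((sV X.P n β \ nb G w).card : ℝ) →
    2 / 5 * ((sV X.P n β \ nb G w).card : ℝ) ≤ ((qV X n β i \ nb G w).card : ℝ)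

/-- The pieces with their labels. -/
structure PcX (C g z θk θ' η a : ℝ) (M : ℕ) (S : Fin J → Scl) (G : SimpleGraph V) (d : ℕ)
    (X : XD V N J) : Prop extends PcD C g z θk θ' η a M S G d X, PcL S η G d X

/-- A colouring of the edges of `xt`, conditions at the pieces of type K. -/
structure TcX (η : ℝ) (G : SimpleGraph V) (d : ℕ) (X : XD V N J) (A : PalX) (t : V → V → ℕ) :
    Prop where
  sym : ∀ v w, t v w = t w v
  lt : ∀ v w, (xt G X).Adj v w → t v w < d + 2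
  inj : ∀ v, Set.InjOn (t v) (nb (xt G X) v : Set V)
  rK : ∀ v, Lk X v → Disjoint (Ft (xt G X) t v) (A.C (X.P.th v))
  lK : ∀ n, X.P.ty n = Ty.K → ∀ b, (((pV X.P n).filter (fun v => v ∉ X.Hv ∧
    b ∈ Ft (xt G X) t v)).card : ℝ) ≤ η * d

/-- Own colours of the vertices in `O`. `big`, `sml` for the pieces of type B, `dif`, `non` for the
pieces of type K: vertices with many neighbours in the same piece have different own colours, the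
others block few vertices. -/
structure OwX (τ e u : ℝ) (S : Fin J → Scl) (G : SimpleGraph V) (d : ℕ) (X : XD V N J)
    (t : V → V → ℕ) (c : V → ℕ) (O : V → Prop) : Prop where
  clt : ∀ v, O v → c v < d + 2
  cc : ∀ v w, O v → O w → G.Adj v w → c v ≠ c w
  ct : ∀ v, O v → c v ∉ Ft (xt G X) t v
  big : ∀ n, X.P.ty n = Ty.B → ∀ w w', O w → O w' → w ≠ w' →
    (S (X.sc n)).ζ / 1000 * d ≤ ((nb G w ∩ pV X.P n).card : ℝ) →
    (S (X.sc n)).ζ / 1000 * d ≤ ((nb G w' ∩ pV X.P n).card : ℝ) → c w ≠ c w'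
  sml : ∀ n, X.P.ty n = Ty.B → ∀ b, ((∑ w ∈ univ.filter (fun w => O w ∧ c w = b ∧
    ((nb G w ∩ pV X.P n).card : ℝ) < (S (X.sc n)).ζ / 1000 * d),
      (nb G w ∩ pV X.P n).card : ℕ) : ℝ) ≤ u * (S (X.sc n)).ζ * d
  dif : ∀ n, X.P.ty n = Ty.K → ∀ w w', O w → O w' → w ≠ w' →
    τ * d ≤ ((nb G w ∩ pV X.P n).card : ℝ) → τ * d ≤ ((nb G w' ∩ pV X.P n).card : ℝ) →
    c w ≠ c w'
  non : ∀ n, X.P.ty n = Ty.K → ∀ b, ((∑ w ∈ univ.filter (fun w => O w ∧ c w = b ∧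
    ((nb G w ∩ pV X.P n).card : ℝ) < τ * d), (nb G w ∩ pV X.P n).card : ℕ) : ℝ) ≤ e * d

/-- Numbers of the colours at the pieces of type N, B: `l` loads, `x` sum of the signed numbers above
`4`, `y` total needs, `q` negative numbers of the colours of `Q j`. -/
structure NuX (l x y q : ℝ) (S : Fin J → Scl) (G : SimpleGraph V) (d : ℕ) (X : XD V N J)
    (A : PalX) (t : V → V → ℕ) : Prop where
  rQ : ∀ n, X.P.ty n = Ty.N ∨ X.P.ty n = Ty.B → ∀ v,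
    Disjoint (Fp (xt G X) X t n v) (A.Q (X.P.pt v.1))
  ld : ∀ n, X.P.ty n = Ty.N ∨ X.P.ty n = Ty.B → ∀ b,
    ((us (Fp (xt G X) X t n) b).card : ℝ) ≤ l * (S (X.sc n)).θ * d
  exc : ∀ n, X.P.ty n = Ty.N ∨ X.P.ty n = Ty.B → ∀ i, ∑ b ∈ range (d + 2),
    max (|((sgp (Fp (xt G X) X t n) (sdn X.P n) (ptn X.P n) i b : ℤ) : ℝ)| - 4) 0 ≤
      x * (pV X.P n).card
  tot : ∀ n, X.P.ty n = Ty.B → ∀ β, ((∑ b ∈ range (d + 2),
    need (Fp (xt G X) X t n) (sdn X.P n) β b : ℕ) : ℝ) ≤ y * (sV X.P n β).card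
  neg : ∀ n, X.P.ty n = Ty.B → ∀ j, ∑ b ∈ A.Q j,
    max (-((sgp (Fp (xt G X) X t n) (sdn X.P n) (ptn X.P n) (!j) b : ℤ) : ℝ)) 0 ≤
      (3 / 5 + q * (sV X.P n false).card / d) * (A.Q j).card

/-- Result of the outside stage. `m`: a missing colour of every covering vertex. -/
structure PreX (η τ e : ℝ) (S : Fin J → Scl) (G : SimpleGraph V) (d : ℕ)
    (X : XD V N J) (A : PalX) (t : V → V → ℕ) (c : V → ℕ) (m : V → ℕ) : Prop
    extends TcX η G d X A t, OwX τ e (1 / 250) S G d X t c (Ow G X d),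
      NuX 100 (1 / 10 ^ 5) (4 / 5) (1 / 400) S G d X A t where
  sup : ∀ n, X.P.ty n = Ty.N ∨ X.P.ty n = Ty.B → ∀ i, ∀ b ∈ range (d + 2),
    |((sgp (Fp (xt G X) X t n) (sdn X.P n) (ptn X.P n) i b : ℤ) : ℝ)| ≤ (d : ℝ) ^ (1 / 100 : ℝ)
  mm : ∀ w, Cov G X d w → m w < d + 2 ∧ m w ∉ Ft (xt G X) t w ∧ ∀ j, m w ∉ A.Q j
  ms : ∀ n β b, ((univ.filter (fun w => Cvr G X d n β w ∧ m w = b)).card : ℝ) ≤
    (d : ℝ) ^ (1 / 200 : ℝ)

/-- Result of RGX: own colours of `V0`. `sup`: few signed numbers are large; `cvt`: own colours of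
covering vertices have small signed numbers; `rgF`: own colours of vertices rigid for the side `false`
are not needed there; `bkt`: own colours of covering vertices occur at few T-edges. -/
structure RgX (C a η τ e : ℝ) (S : Fin J → Scl) (G : SimpleGraph V) (d : ℕ)
    (X : XD V N J) (A : PalX) (t : V → V → ℕ) (c : V → ℕ) : Prop
    extends TcX η G d X A t, OwX τ e (1 / 125) S G d X t c (fun v => v ∈ X.P.V0),
      NuX 200 (2 / 10 ^ 5) (5 / 6) (1 / 200) S G d X A t where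
  sup : ∀ n, X.P.ty n = Ty.N ∨ X.P.ty n = Ty.B → ∀ i, ∑ b ∈ range (d + 2),
    max (|((sgp (Fp (xt G X) X t n) (sdn X.P n) (ptn X.P n) i b : ℤ) : ℝ)| -
      2 * (d : ℝ) ^ (1 / 100 : ℝ)) 0 ≤ a * d
  cvt : ∀ n β w, Cvr G X d n β w → ∀ i,
    |((sgp (Fp (xt G X) X t n) (sdn X.P n) (ptn X.P n) i (c w) : ℤ) : ℝ)| ≤ 1000 * (C + 5)
  rgF : ∀ n w, X.P.rg w = some (n, false) → 0 ≤ sg (Fp (xt G X) X t n) (sdn X.P n) (c w)
  bkt : ∀ n m, X.P.ty n = Ty.B → X.P.ty m = Ty.B → SmC X n m → ∀ β β' i i' b,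
    (nT G X t b (qV X n β i) (qV X m β' i') (Cvc G X d c n ∪ Cvc G X d c m) : ℝ) ≤
      1 / 8 * nT G X t b (qV X n β i) (qV X m β' i') (range (d + 2)) +
        ((d : ℝ) ^ (39 / 20 : ℝ) + a * (d : ℝ) ^ 2)

/-- the classes of the colours for the piece `n`: `P2n n` and `P1` -/
noncomputable def cls (d : ℕ) (Qn : Fin N → Bool → Finset ℕ) (P2n : Fin N → Finset ℕ) (n : Fin N)
    (l : Bool) : Finset ℕ := if l then P2n n else P1 d (Qn n) (P2n n)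

/-- Result of SELP: palettes of the pieces of type N, B. `ng`: the colours of `Qn n j` have no large
needs; `rgP`, `rgQ`: own colours of rigid vertices; `tst`: the classes `cls n A ∩ cls m B` contain a fraction
of the colours of the T-edges between `n` and `m`, without the own colours of covering vertices. -/
structure SelX (g : ℝ) (x : Fin J → ℝ) (S : Fin J → Scl) (G : SimpleGraph V) (d : ℕ)
    (X : XD V N J) (t : V → V → ℕ) (c : V → ℕ)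
    (Qn : Fin N → Bool → Finset ℕ) (P2n : Fin N → Finset ℕ) : Prop where
  Qlt : ∀ n, X.P.ty n = Ty.N ∨ X.P.ty n = Ty.B → ∀ i, Qn n i ⊆ range (d + 2)
  Plt : ∀ n, X.P.ty n = Ty.N ∨ X.P.ty n = Ty.B → P2n n ⊆ range (d + 2)
  QQ : ∀ n, X.P.ty n = Ty.N ∨ X.P.ty n = Ty.B → Disjoint (Qn n false) (Qn n true)
  QP : ∀ n, X.P.ty n = Ty.N ∨ X.P.ty n = Ty.B → ∀ i, Disjoint (Qn n i) (P2n n)
  Qc : ∀ n, X.P.ty n = Ty.N ∨ X.P.ty n = Ty.B → ∀ i, (S (X.sc n)).κ * d ≤ ((Qn n i).card : ℝ) ∧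
    ((Qn n i).card : ℝ) ≤ 2 * (S (X.sc n)).κ * d
  Pc : ∀ n, X.P.ty n = Ty.N ∨ X.P.ty n = Ty.B → (S (X.sc n)).π * d ≤ ((P2n n).card : ℝ) ∧
    ((P2n n).card : ℝ) ≤ 2 * (S (X.sc n)).π * d
  rQn : ∀ n, X.P.ty n = Ty.N ∨ X.P.ty n = Ty.B → ∀ v,
    Disjoint (Fp (xt G X) X t n v) (Qn n (X.P.pt v.1))
  sm : ∀ n, X.P.ty n = Ty.N ∨ X.P.ty n = Ty.B → ∀ i, |((∑ b ∈ Qn n (!i) ∪ P2n n,
    sgp (Fp (xt G X) X t n) (sdn X.P n) (ptn X.P n) i b : ℤ) : ℝ)| ≤ x (X.sc n) * d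
  lN : ∀ n, X.P.ty n = Ty.N → ∀ i, ∑ b ∈ Qn n (!i) ∪ P2n n,
    |((sgp (Fp (xt G X) X t n) (sdn X.P n) (ptn X.P n) i b : ℤ) : ℝ)| ≤ g / 400 * d
  lB : ∀ n, X.P.ty n = Ty.B → ∀ i, ∑ b ∈ Qn n (!i) ∪ P2n n,
    |((sgp (Fp (xt G X) X t n) (sdn X.P n) (ptn X.P n) i b : ℤ) : ℝ)| ≤
      min (S (X.sc n)).ρ (1 / 1000) / 200 * d
  ng : ∀ n, X.P.ty n = Ty.B → ∀ j, ∀ b ∈ Qn n j, -((sV X.P n false).card : ℝ) ≤
    10 * d * ((sgp (Fp (xt G X) X t n) (sdn X.P n) (ptn X.P n) (!j) b : ℤ) : ℝ)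
  rgP : ∀ n w, X.P.rg w = some (n, true) → c w ∈ P2n n
  rgQ : ∀ n w, X.P.rg w = some (n, false) → c w ∉ P2n n ∧ ∀ i, c w ∉ Qn n i
  tst : ∀ n m, X.P.ty n = Ty.B → X.P.ty m = Ty.B → SmC X n m → ∀ β β' i i' b A B,
    (n = m → A = B) → (S (X.sc n)).π ^ 2 / 64 *
      nT G X t b (qV X n β i) (qV X m β' i') (range (d + 2) \ (Cvc G X d c n ∪ Cvc G X d c m)) ≤
      nT G X t b (qV X n β i) (qV X m β' i')
        ((cls d Qn P2n n A ∩ cls d Qn P2n m B) \ (Cvc G X d c n ∪ Cvc G X d c m)) +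
        (d : ℝ) ^ (39 / 20 : ℝ)

/-- Result of OWNX: own colours `c'` of `V0` (unchanged) and of the pieces of type N. -/
structure OwnX (τ e : ℝ) (S : Fin J → Scl) (G : SimpleGraph V) (d : ℕ) (X : XD V N J)
    (t : V → V → ℕ) (c : V → ℕ) (Qn : Fin N → Bool → Finset ℕ) (P2n : Fin N → Finset ℕ)
    (c' : V → ℕ) : Prop extends OwX τ e (1 / 50) S G d X t c' (Owd X) where
  eq : ∀ v ∈ X.P.V0, c' v = c v
  nP : ∀ n, X.P.ty n = Ty.N → ∀ v ∈ pV X.P n, c' v ∉ P2n n ∧ ∀ i, c' v ∉ Qn n i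
  ldN : ∀ n, X.P.ty n = Ty.N → ∀ b, (((pV X.P n).filter (fun v => c' v = b)).card : ℝ) ≤
    (S (X.sc n)).θ * d

/-- a set of vertices inside the piece `n` -/
noncomputable def Tn (X : XD V N J) (n : Fin N) (T : Finset V) : Finset (Ts X.P n) :=
  univ.filter (fun v => v.1 ∈ T)

/-- Result of OCB: new colours `t1` of the T-edges, own colours `c0`, `c1`, `T1`, `T2` as in `LB3`.
`x s`: small number for the scale `s`. -/
structure OcbX (τ e : ℝ) (x : Fin J → ℝ) (S : Fin J → Scl) (G : SimpleGraph V) (d : ℕ)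
    (X : XD V N J) (t : V → V → ℕ) (c : V → ℕ) (Qn : Fin N → Bool → Finset ℕ)
    (P2n : Fin N → Finset ℕ) (t1 : V → V → ℕ) (c0 c1 : V → ℕ)
    (T1 T2 : Finset V) : Prop where
  sym : ∀ v w, t1 v w = t1 w v
  lt : ∀ v w, (xt G X).Adj v w → t1 v w < d + 2
  inj : ∀ v, Set.InjOn (t1 v) (nb (xt G X) v : Set V)
  teq : ∀ v w, (xt G X).Adj v w → ¬ (InT X Ty.B v ∧ InT X Ty.B w) → t1 v w = t v w
  rB : ∀ n, X.P.ty n = Ty.B → ∀ v, Disjoint (Fp (xt G X) X t1 n v) (Qn n (X.P.pt v.1))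
  lB : ∀ n, X.P.ty n = Ty.B → ∀ b, ((us (Fp (xt G X) X t1 n) b).card : ℝ) ≤ x (X.sc n) * d
  gB : ∀ n, X.P.ty n = Ty.B → ∀ i, ∀ b ∈ Qn n (!i) ∪ P2n n,
    |((sgp (Fp (xt G X) X t1 n) (sdn X.P n) (ptn X.P n) i b : ℤ) : ℝ)| ≤ x (X.sc n) * d
  l1B : ∀ n, X.P.ty n = Ty.B → ∀ i, ∑ b ∈ Qn n (!i) ∪ P2n n,
    |((sgp (Fp (xt G X) X t1 n) (sdn X.P n) (ptn X.P n) i b : ℤ) : ℝ)| ≤
      min (S (X.sc n)).ρ (1 / 1000) / 100 * d
  TB : ∀ v ∈ T1 ∪ T2, InT X Ty.B v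
  T12 : Disjoint T1 T2
  c0Q : ∀ v, InT X Ty.B v → v ∉ T1 → c0 v ∈ Qn (X.P.pc v) (X.P.pt v)
  c1P : ∀ v ∈ T1, c1 v ∈ P1 d (Qn (X.P.pc v)) (P2n (X.P.pc v))
  c2P : ∀ v ∈ T2, X.P.sd v = false ∧
    c1 v ∈ P2n (X.P.pc v) ∪ Qn (X.P.pc v) (!(X.P.pt v))
  c1F : ∀ v ∈ T1 ∪ T2, c1 v ∉ Ft (xt G X) t1 v
  pcc : ∀ v w, InT X Ty.B v → InT X Ty.B w → G.Adj v w →
    Disjoint (oc c0 c1 T1 T2 v) (oc c0 c1 T1 T2 w)
  pco : ∀ v w, InT X Ty.B v → Owd X w → G.Adj v w → c w ∉ oc c0 c1 T1 T2 v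
  bal : ∀ n, X.P.ty n = Ty.B → ∀ β, ∀ b ∈ P1 d (Qn n) (P2n n),
    need (Fo (Tn X n T1) (fun v => c1 v.1) (Fp (xt G X) X t1 n)) (sdn X.P n) β b = 0
  T1c : ∀ n, X.P.ty n = Ty.B → ∀ b,
    (((Tn X n T1).filter (fun v => c1 v.1 = b)).card : ℝ) ≤ x (X.sc n) * d
  sgT : ∀ n, X.P.ty n = Ty.B → ∀ i,
    |((Tn X n T1 ∩ qtr (sdn X.P n) (ptn X.P n) false i).card : ℝ) -
      (Tn X n T1 ∩ qtr (sdn X.P n) (ptn X.P n) true i).card -
      ((∑ b ∈ Qn n (!i) ∪ P2n n,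
        sgp (Fp (xt G X) X t1 n) (sdn X.P n) (ptn X.P n) i b : ℤ) : ℝ)| ≤ x (X.sc n) * d
  unm : ∀ n, X.P.ty n = Ty.B → ∀ v : Ts X.P n, (d : ℝ) / 1000 ≤
    (((nb (bk G X.P n) v ∩ prt (ptn X.P n) (ptn X.P n v)) \ (Tn X n T1 ∪ Tn X n T2)).card : ℝ)
  n2 : ∀ n, X.P.ty n = Ty.B → ∀ i, ∀ b ∈ P2n n,
    2 ≤ (((Tn X n T2).filter (fun v => ptn X.P n v = i ∧ c1 v.1 = b)).card : ℤ) +
      sgp (Fp (xt G X) X t1 n) (sdn X.P n) (ptn X.P n) i b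
  nQ : ∀ n, X.P.ty n = Ty.B → ∀ i, ∀ b ∈ Qn n (!i),
    0 ≤ (((Tn X n T2).filter (fun v => ptn X.P n v = i ∧ c1 v.1 = b)).card : ℤ) +
      sgp (Fp (xt G X) X t1 n) (sdn X.P n) (ptn X.P n) i b
  -- pieces of type K
  non : ∀ n, X.P.ty n = Ty.K → ∀ b, ((∑ w ∈ univ.filter (fun w => InT X Ty.B w ∧
    b ∈ oc c0 c1 T1 T2 w ∧ ((nb G w ∩ pV X.P n).card : ℝ) < τ * d),
      (nb G w ∩ pV X.P n).card : ℕ) : ℝ) ≤ e * d

/-- The situation before the pieces of type K: everything else is coloured. -/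
structure PosX (η τ e : ℝ) (G : SimpleGraph V) (d : ℕ) (X : XD V N J) (A : PalX)
    (t : V → V → ℕ) (c : V → ℕ) : Prop where
  sym : ∀ v w, t v w = t w v
  lt : ∀ v w, (xo G X).Adj v w → t v w < d + 2
  inj : ∀ v, Set.InjOn (t v) (nb (xo G X) v : Set V)
  clt : ∀ v, ¬ InT X Ty.K v → c v < d + 2
  cc : ∀ v w, ¬ InT X Ty.K v → ¬ InT X Ty.K w → G.Adj v w → c v ≠ c w
  ct : ∀ v, ¬ InT X Ty.K v → c v ∉ Ft (xo G X) t v
  rK : ∀ v, Lk X v → Disjoint (Ft (xo G X) t v) (A.C (X.P.th v))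
  lK : ∀ n, X.P.ty n = Ty.K → ∀ b, (((pV X.P n).filter (fun v => v ∉ X.Hv ∧
    b ∈ Ft (xo G X) t v)).card : ℝ) ≤ η * d
  dif : ∀ n, X.P.ty n = Ty.K → ∀ w w', ¬ InT X Ty.K w → ¬ InT X Ty.K w' → w ≠ w' →
    τ * d ≤ ((nb G w ∩ pV X.P n).card : ℝ) → τ * d ≤ ((nb G w' ∩ pV X.P n).card : ℝ) →
    c w ≠ c w'
  non : ∀ n, X.P.ty n = Ty.K → ∀ b, ((∑ w ∈ univ.filter (fun w => ¬ InT X Ty.K w ∧ c w = b ∧
    ((nb G w ∩ pV X.P n).card : ℝ) < τ * d), (nb G w ∩ pV X.P n).card : ℕ) : ℝ) ≤ e * d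

/-- A total colouring. -/
structure TotX (d : ℕ) (G : SimpleGraph V) (c : V → ℕ) (t : V → V → ℕ) : Prop where
  clt : ∀ v, c v < d + 2
  cc : ∀ v w, G.Adj v w → c v ≠ c w
  sym : ∀ v w, t v w = t w v
  tlt : ∀ v w, G.Adj v w → t v w < d + 2
  inj : ∀ v, Set.InjOn (t v) (nb G v : Set V)
  tc : ∀ v w, G.Adj v w → t v w ≠ c v

end defs

/-- RGX (owner helper38): own colours of the covering vertices. The vertex `w` chooses an edge `w y`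
of colour `b`, `y` light in the covered side, `m w` is missing at `y`: `w` gets the own colour `b` and
`w y` the colour `m w`. -/
def Stmt_RGX : Prop :=
  ∀ (πk C g z τ e : ℝ) (M : ℕ), 1 / 4 ≤ πk → πk < 1 / 3 → 1 ≤ C → 0 < g → g ≤ 1 / 10 → 0 < z → z ≤ 1 / 10 → 0 < τ →
    64 * τ ≤ e → ∃ T : Thr, T.Pos ∧
    ∀ (J : ℕ) (S : Fin J → Scl) (c' : ℝ), (∀ s, Adm T (S s)) → 0 < c' → ∃ d0 : ℕ,
    ∀ {V : Type u} [Fintype V] {N : ℕ} (G : SimpleGraph V) (d : ℕ) (X : XD V N J) (A : PalX)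
      (t : V → V → ℕ) (c m : V → ℕ) (θk θ' η : ℝ), d0 ≤ d →
      PcX C g z θk θ' η ((d : ℝ) ^ (-c')) M S G d X → PalXP πk A d →
      PreX η τ (e / 8) S G d X A t c m →
      ∃ (t1 : V → V → ℕ) (c1 : V → ℕ), RgX C ((d : ℝ) ^ (-c')) η τ (e / 4) S G d X A t1 c1

/-- SELP (owner helper38): the palettes of the pieces. -/
def Stmt_SELP : Prop :=
  ∀ (πk C g z τ e : ℝ) (M : ℕ) (x : ℝ → ℝ → ℝ → ℝ), 1 / 4 ≤ πk → πk < 1 / 3 → 1 ≤ C → 0 < g → g ≤ 1 / 10 → 0 < z →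
    z ≤ 1 / 10 → 0 < τ → 64 * τ ≤ e → (∀ ρ π κ, 0 < ρ → 0 < π → 0 < κ → 0 < x ρ π κ) →
    ∃ T : Thr, T.Pos ∧
    ∀ (J : ℕ) (S : Fin J → Scl) (c' : ℝ), (∀ s, Adm T (S s)) → 0 < c' → ∃ d0 : ℕ,
    ∀ {V : Type u} [Fintype V] {N : ℕ} (G : SimpleGraph V) (d : ℕ) (X : XD V N J) (A : PalX)
      (t : V → V → ℕ) (c : V → ℕ) (θk θ' η : ℝ), d0 ≤ d →
      PcX C g z θk θ' η ((d : ℝ) ^ (-c')) M S G d X → PalXP πk A d →
      RgX C ((d : ℝ) ^ (-c')) η τ (e / 4) S G d X A t c →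
      ∃ (Qn : Fin N → Bool → Finset ℕ) (P2n : Fin N → Finset ℕ),
        SelX g (fun s => x (S s).ρ (S s).π (S s).κ) S G d X t c Qn P2n

/-- OWNX (owner helper62): own colours of the pieces of type N. -/
def Stmt_OWNX : Prop :=
  ∀ (πk C g z τ e : ℝ) (M : ℕ), 1 / 4 ≤ πk → πk < 1 / 3 → 1 ≤ C → 0 < g → g ≤ 1 / 10 → 0 < z → z ≤ 1 / 10 → 0 < τ →
    64 * τ ≤ e → ∃ T : Thr, T.Pos ∧
    ∀ (J : ℕ) (S : Fin J → Scl) (c' : ℝ), (∀ s, Adm T (S s)) → 0 < c' → ∃ d0 : ℕ,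
    ∀ {V : Type u} [Fintype V] {N : ℕ} (G : SimpleGraph V) (d : ℕ) (X : XD V N J) (A : PalX)
      (t : V → V → ℕ) (c : V → ℕ) (Qn : Fin N → Bool → Finset ℕ) (P2n : Fin N → Finset ℕ)
      (x : Fin J → ℝ) (θk θ' η : ℝ), d0 ≤ d →
      PcX C g z θk θ' η ((d : ℝ) ^ (-c')) M S G d X → PalXP πk A d →
      RgX C ((d : ℝ) ^ (-c')) η τ (e / 4) S G d X A t c → SelX g x S G d X t c Qn P2n →
      ∃ cN : V → ℕ, OwnX τ (e / 2) S G d X t c Qn P2n cN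

/-- OCB (owner helper1; REC, SLT, BAS): the own colours of all pieces of type B. -/
def Stmt_OCB : Prop :=
  ∀ (πk C g z τ e : ℝ) (M : ℕ) (x : ℝ → ℝ → ℝ → ℝ), 1 / 4 ≤ πk → πk < 1 / 3 → 1 ≤ C → 0 < g → g ≤ 1 / 10 → 0 < z →
    z ≤ 1 / 10 → 0 < τ → 64 * τ ≤ e → (∀ ρ π κ, 0 < ρ → 0 < π → 0 < κ → 0 < x ρ π κ) →
    ∃ (T : Thr) (x' : ℝ → ℝ → ℝ → ℝ), T.Pos ∧
      (∀ ρ π κ, 0 < ρ → 0 < π → 0 < κ → 0 < x' ρ π κ) ∧
    ∀ (J : ℕ) (S : Fin J → Scl) (c' : ℝ), (∀ s, Adm T (S s)) → 0 < c' → ∃ d0 : ℕ,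
    ∀ {V : Type u} [Fintype V] {N : ℕ} (G : SimpleGraph V) (d : ℕ) (X : XD V N J) (A : PalX)
      (t : V → V → ℕ) (c : V → ℕ) (Qn : Fin N → Bool → Finset ℕ) (P2n : Fin N → Finset ℕ)
      (cN : V → ℕ) (θk θ' η : ℝ), d0 ≤ d →
      PcX C g z θk θ' η ((d : ℝ) ^ (-c')) M S G d X → PalXP πk A d →
      RgX C ((d : ℝ) ^ (-c')) η τ (e / 4) S G d X A t c →
      SelX g (fun s => x' (S s).ρ (S s).π (S s).κ) S G d X t c Qn P2n →
      OwnX τ (e / 2) S G d X t c Qn P2n cN →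
      ∃ (t1 : V → V → ℕ) (c0 c1 : V → ℕ) (T1 T2 : Finset V),
        OcbX τ (e / 2) (fun s => x (S s).ρ (S s).π (S s).κ) S G d X t cN Qn P2n t1 c0 c1 T1 T2

/-- BX: all pieces of type N and B are finished. -/
def Stmt_BX : Prop :=
  ∀ (πk C g z τ e : ℝ) (M : ℕ), 1 / 4 ≤ πk → πk < 1 / 3 → 1 ≤ C → 0 < g → g ≤ 1 / 10 → 0 < z → z ≤ 1 / 10 → 0 < τ →
    64 * τ ≤ e → ∃ T : Thr, T.Pos ∧
    ∀ (J : ℕ) (S : Fin J → Scl) (c' : ℝ), (∀ s, Adm T (S s)) → 0 < c' → ∃ d0 : ℕ,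
    ∀ {V : Type u} [Fintype V] {N : ℕ} (G : SimpleGraph V) (d : ℕ) (X : XD V N J) (A : PalX)
      (t : V → V → ℕ) (c m : V → ℕ) (θk θ' η : ℝ), d0 ≤ d →
      PcX C g z θk θ' η ((d : ℝ) ^ (-c')) M S G d X → PalXP πk A d →
      PreX η τ (e / 8) S G d X A t c m →
      ∃ (t1 : V → V → ℕ) (c1 : V → ℕ), PosX η τ e G d X A t1 c1

/-- KX (from `MP_db9399_xq.Stmt_KQ`): all pieces of type K are finished. `πk`, `θk` absolute, `z`
absorption threshold, then `η` (loads, heavy vertices, boundaries), `θ'`, `e`; `τ` arbitrary. -/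
def Stmt_KX : Prop :=
  ∃ (πk θk : ℝ), 1 / 4 ≤ πk ∧ πk < 1 / 3 ∧ 0 < θk ∧ θk ≤ 1 / 100 ∧
    ∀ z : ℝ, 0 < z → z ≤ 1 → ∃ (θ' η e : ℝ) (d0 : ℕ), 0 < θ' ∧ 0 < η ∧ 0 < e ∧
    ∀ (C g τ a : ℝ) (M J : ℕ) (S : Fin J → Scl) {V : Type u} [Fintype V] {N : ℕ}
      (G : SimpleGraph V) (d : ℕ) (X : XD V N J) (A : PalX) (t : V → V → ℕ) (c : V → ℕ),
      d0 ≤ d → PcX C g z θk θ' η a M S G d X → PalXP πk A d → PosX η τ e G d X A t c →
      ∃ (c1 : V → ℕ) (t1 : V → V → ℕ), TotX d G c1 t1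

end Pool.Agent.Work.MP_db9399_xf
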