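import Pool.Agent.Work.MP_db9399_xf_helper62.XFrame
import Pool.Agent.Work.MP_db9399_xq.PrepQ

/-!
# MP_db9399, all scales: the pieces of type K, from KQ (helper62)
-/

set_option autoImplicit false

namespace Pool.Agent.Work.MP_db9399_xf

open Finset Classical
open Pool.Agent.Work.MP_db9399_all (nb)
open Pool.Agent.Work.MP_db9399_lt (us)
open Pool.Agent.Work.MP_db9399_da
open Pool.Agent.Work.MP_db9399_sl (InS Same Gout Gss Gin Gex Out)
open Pool.Agent.Work.MP_db9399_sw (Gxh Grh Lgt shs)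
open Pool.Agent.Work.MP_db9399_sx (Grp)
open Pool.Agent.Work.MP_db9399_xq (OwnQ)

universe u

/-- natural numbers `< d + 2` as colours -/
def fc (d b : ℕ) : Fin (d + 2) := if h : b < d + 2 then ⟨b, h⟩ else ⟨0, by omega⟩

theorem fc_val {d b : ℕ} (h : b < d + 2) : (fc d b : ℕ) = b := by
  unfold fc
  rw [dif_pos h]

theorem fc_inj {d a b : ℕ} (ha : a < d + 2) (hb : b < d + 2) (h : fc d a = fc d b) : a = b := by
  have := congrArg Fin.val h
  rwa [fc_val ha, fc_val hb] at this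

section
variable {V : Type u} [Fintype V] {N J : ℕ}

theorem mem_nb' {G : SimpleGraph V} {v w : V} : w ∈ nb G v ↔ G.Adj v w := by simp [nb]

theorem mem_pV' {P : Pcs V N} {n : Fin N} {v : V} : v ∈ pV P n ↔ v ∉ P.V0 ∧ P.pc v = n := by
  simp [pV]

/-- the pieces of type K -/
noncomputable def YsK (X : XD V N J) : Finset (Finset V) :=
  (univ.filter (fun n => X.P.ty n = Ty.K)).image (pV X.P)

theorem mem_YsK {X : XD V N J} {Y : Finset V} :
    Y ∈ YsK X ↔ ∃ n, X.P.ty n = Ty.K ∧ pV X.P n = Y := by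
  simp [YsK]

theorem inS_iff {X : XD V N J} {v : V} : InS (YsK X) v ↔ InT X Ty.K v := by
  constructor
  · rintro ⟨Y, hY, hv⟩
    obtain ⟨n, hn, rfl⟩ := mem_YsK.1 hY
    obtain ⟨h1, h2⟩ := mem_pV'.1 hv
    exact ⟨h1, by rw [h2]; exact hn⟩
  · rintro ⟨h1, h2⟩
    exact ⟨pV X.P (X.P.pc v), mem_YsK.2 ⟨_, h2, rfl⟩, mem_pV'.2 ⟨h1, rfl⟩⟩

theorem same_iff {X : XD V N J} {v w : V} : Same (YsK X) v w ↔
    InT X Ty.K v ∧ InT X Ty.K w ∧ X.P.pc v = X.P.pc w := by
  constructor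
  · rintro ⟨Y, hY, hv, hw⟩
    refine ⟨inS_iff.1 ⟨Y, hY, hv⟩, inS_iff.1 ⟨Y, hY, hw⟩, ?_⟩
    obtain ⟨n, hn, rfl⟩ := mem_YsK.1 hY
    rw [(mem_pV'.1 hv).2, (mem_pV'.1 hw).2]
  · rintro ⟨h1, h2, h3⟩
    exact ⟨pV X.P (X.P.pc v), mem_YsK.2 ⟨_, h1.2, rfl⟩, mem_pV'.2 ⟨h1.1, rfl⟩,
      mem_pV'.2 ⟨h2.1, h3.symm⟩⟩

/-- the heavy vertices of the pieces of type K -/
noncomputable def HsK (X : XD V N J) : Finset V := X.Hv.filter (InT X Ty.K)

theorem lgt_iff {X : XD V N J} {v : V} : Lgt (YsK X) (HsK X) v ↔ Lk X v := by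
  unfold Lgt Lk HsK
  rw [inS_iff, mem_filter]
  tauto

theorem gxh_iff {G : SimpleGraph V} {X : XD V N J} {v w : V} :
    (Gxh G (YsK X) (HsK X)).Adj v w ↔ (xo G X).Adj v w := by
  change (G.Adj v w ∧ ¬ Same (YsK X) v w ∧
    ¬ (Lgt (YsK X) (HsK X) v ∧ Lgt (YsK X) (HsK X) w)) ↔ _ ∧ _
  rw [lgt_iff, lgt_iff, same_iff]
  unfold Lk
  tauto

theorem KX_main {πk θk ε2 ε z δ ε3 θ' η0 : ℝ} (hε2 : 0 < ε2) (hε : 0 < ε)
    (hθk : 0 < θk) (hθk1 : θk ≤ 1 / 100) (hz : 0 < z)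
    (hδ : 0 < δ) {η : ℝ} (hη1 : 2 * η ≤ δ) (hη2 : η ≤ η0) (hη3 : η ≤ 1 / 10 ^ 4) (hη0 : 0 < η)
    {C g τ a : ℝ} {M : ℕ} {S : Fin J → Scl} (G : SimpleGraph V) (d : ℕ) (hd : 1 ≤ d)
    (X : XD V N J) (A : PalX) (t : V → V → ℕ) (c : V → ℕ)
    (hP : PcX C g z θk θ' η a M S G d X) (hA : PalXP πk A d) (hX : PosX η τ ε3 G d X A t c)
    (hKQ : ∀ (τ : ℝ) (G EH : SimpleGraph V) (Ys : Finset (Finset V)) (UH Hs : Finset V)
      (c0 tu cc : V → Fin (d + 2)) (t : V → V → Fin (d + 2)) (E : V → Finset (Fin (d + 2)))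
      (K0 : Finset (Fin (d + 2))) (C : Fin 3 → Finset (Fin (d + 2))) (p : V → Fin 3)
      (a : V → Bool) (Z : Finset V) (μ : V → Fin (d + 2)),
      Grp θk θ' η0 G EH d Ys UH Hs c0 tu →
      (∀ Y ∈ Ys, ((Y ∩ Hs).card : ℝ) ≤ η0 * Y.card) →
      Out δ πk G (Gxh G Ys Hs) (Grh G EH Ys Hs) EH d Ys UH c0 tu cc t E K0 C p a Z →
      (∀ j, ((C j).card : ℝ) ≤ πk * d + 1) → OwnQ z τ ε3 G d Ys UH c0 cc →
      (∀ y ∈ UH, ¬ InS Ys y → MP_db9399_sv.Mis G cc K0 μ t y) →
      (∀ y ∈ UH, ¬ InS Ys y →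
        (((nb G y).filter (fun v => InS Ys v ∧ v ∉ UH ∧ μ y ∈ E v)).card : ℝ) ≤ ε2 * d) →
      (∀ Y ∈ shs d Ys, ((∑ v ∈ (Y \ Hs) \ UH, ((nb G v).filter (fun y => y ∈ UH ∧
        ¬ InS Ys y ∧ μ y ∈ E v)).card : ℕ) : ℝ) ≤ ε * Y.card) →
      ∃ (c' : V → Fin (d + 2)) (t3 : V → V → Fin (d + 2)), MP_db9399_dn.Tot G c' t3 ∧
        (∀ v ∈ UH, c' v = c0 v) ∧ ∀ v w, EH.Adj v w → t3 v w = tu v) :
    ∃ (c1 : V → ℕ) (t1 : V → V → ℕ), TotX d G c1 t1 := by
  have hd0 : (0 : ℝ) ≤ d := Nat.cast_nonneg d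
  have hFlt : ∀ v, ∀ b ∈ Ft (xo G X) t v, b < d + 2 := by
    intro v b hb
    obtain ⟨w, hw, rfl⟩ := mem_image.1 hb
    exact hX.lt v w (mem_nb'.1 hw)
  have hmemE : ∀ v b, b < d + 2 → (fc d b ∈ (Ft (xo G X) t v).image (fc d) ↔
      b ∈ Ft (xo G X) t v) := by
    intro v b hb
    constructor
    · intro h
      obtain ⟨b', hb', he⟩ := mem_image.1 h
      rw [← fc_inj (hFlt v b' hb') hb he]
      exact hb'
    · exact fun h => mem_image_of_mem _ h
  have hxoK : ∀ v w, ¬ InT X Ty.K v → G.Adj v w → (xo G X).Adj v w := fun v w hv h =>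
    ⟨h, fun h' => hv h'.1⟩
  have hYU : ∀ Y ∈ YsK X, (Y.card : ℝ) ≤ (1 + θk) * d := by
    intro Y hY
    obtain ⟨n, hn, rfl⟩ := mem_YsK.1 hY
    exact hP.kU n hn
  have hYH : ∀ Y ∈ YsK X, ((Y ∩ HsK X).card : ℝ) ≤ η * Y.card := by
    intro Y hY
    obtain ⟨n, hn, rfl⟩ := mem_YsK.1 hY
    refine le_trans ?_ (hP.kh n hn)
    exact_mod_cast card_le_card (inter_subset_inter_left (filter_subset _ _))
  have hG : Grp θk θ' η0 G (⊥ : SimpleGraph V) d (YsK X) ∅ (HsK X)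
      (fun _ => fc d 0) (fun _ => fc d 0) := by
    refine { deg := fun v => (hP.reg v).le, pre := ?_, dis := ?_, low := ?_, upp := hYU,
             din := ?_, inn := ?_, sum := ?_, uh2 := ?_, hsS := ?_, lig := ?_, hsc := ?_ }
    · exact { EG := bot_le
              mat := by
                intro v
                simp [nb]
              EU := fun v w h => absurd h (by simp)
              cov := fun u hu => absurd hu (notMem_empty u)
              ind := fun u hu => absurd hu (notMem_empty u)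
              far := fun v u hu => absurd hu (notMem_empty u)
              cc := fun u u' h => absurd h (by simp)
              ct := fun u hu => absurd hu (notMem_empty u)
              tt := fun u u' h => absurd h (by simp) }
    · intro Y hY Y' hY' hne
      obtain ⟨n, hn, rfl⟩ := mem_YsK.1 hY
      obtain ⟨n', hn', rfl⟩ := mem_YsK.1 hY'
      rw [disjoint_left]
      intro v hv hv'
      apply hne
      rw [← (mem_pV'.1 hv).2, ← (mem_pV'.1 hv').2]
    · intro Y hY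
      obtain ⟨n, hn, rfl⟩ := mem_YsK.1 hY
      exact hP.kL n hn
    · intro Y hY v hv
      obtain ⟨n, hn, rfl⟩ := mem_YsK.1 hY
      obtain ⟨h1, h2⟩ := mem_pV'.1 hv
      have := hP.kd v ⟨h1, by rw [h2]; exact hn⟩
      rwa [h2] at this
    · intro Y hY v hv
      obtain ⟨n, hn, rfl⟩ := mem_YsK.1 hY
      obtain ⟨h1, h2⟩ := mem_pV'.1 hv
      have := hP.ki v ⟨h1, by rw [h2]; exact hn⟩
      rwa [h2] at this
    · intro Y hY
      obtain ⟨n, hn, rfl⟩ := mem_YsK.1 hY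
      refine (hP.ks n hn).trans ?_
      exact mul_le_mul_of_nonneg_right (mul_le_mul_of_nonneg_right hη2 hd0) (Nat.cast_nonneg _)
    · intro Y _
      simp
    · intro v hv
      exact inS_iff.2 (mem_filter.1 hv).2
    · intro Y hY v hv hvH
      obtain ⟨n, hn, rfl⟩ := mem_YsK.1 hY
      obtain ⟨h1, h2⟩ := mem_pV'.1 hv
      have h3 : InT X Ty.K v := ⟨h1, by rw [h2]; exact hn⟩
      have := hP.kl v ⟨h3, fun h => hvH (mem_filter.2 ⟨h, h3⟩)⟩
      rwa [h2] at this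
    · intro Y hY
      have h1 := hYH Y hY
      have h2 : ((10 ^ 4 * (Y ∩ HsK X).card : ℕ) : ℝ) ≤ (Y.card : ℝ) := by
        push_cast
        have h3 : η * (Y.card : ℝ) ≤ 1 / 10 ^ 4 * Y.card :=
          mul_le_mul_of_nonneg_right hη3 (Nat.cast_nonneg _)
        linarith
      exact_mod_cast h2
  have hnbv : ∀ v, InS (YsK X) v → ((Ft (xo G X) t v).image (fc d)).card +
      (nb (Gin G (⊥ : SimpleGraph V) (YsK X)) v).card +
      (nb (Grh G (⊥ : SimpleGraph V) (YsK X) (HsK X)) v).card = d := by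
    intro v _
    have e1 : ((Ft (xo G X) t v).image (fc d)).card = (nb (xo G X) v).card := by
      rw [card_image_of_injOn, Ft, card_image_of_injOn (hX.inj v)]
      intro a ha b hb h
      exact fc_inj (hFlt v a ha) (hFlt v b hb) h
    have e2 : nb G v = (nb (xo G X) v ∪ nb (Gin G (⊥ : SimpleGraph V) (YsK X)) v) ∪
        nb (Grh G (⊥ : SimpleGraph V) (YsK X) (HsK X)) v := by
      ext w
      rw [mem_union, mem_union, mem_nb', mem_nb', mem_nb', mem_nb']
      change _ ↔ ((G.Adj v w ∧ ¬ _) ∨ (G.Adj v w ∧ Same (YsK X) v w ∧ ¬ False)) ∨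
        (G.Adj v w ∧ ¬ Same (YsK X) v w ∧ Lgt (YsK X) (HsK X) v ∧ Lgt (YsK X) (HsK X) w ∧
          ¬ False)
      rw [lgt_iff, lgt_iff, same_iff]
      unfold Lk
      tauto
    have d1 : Disjoint (nb (xo G X) v) (nb (Gin G (⊥ : SimpleGraph V) (YsK X)) v) := by
      rw [disjoint_left]
      intro w h1 h2
      have h1' := mem_nb'.1 h1
      have h2' : Same (YsK X) v w := (mem_nb'.1 h2).2.1
      rw [same_iff] at h2'
      exact h1'.2 ⟨h2'.1, h2'.2.1, Or.inl h2'.2.2⟩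
    have d2 : Disjoint (nb (xo G X) v ∪ nb (Gin G (⊥ : SimpleGraph V) (YsK X)) v)
        (nb (Grh G (⊥ : SimpleGraph V) (YsK X) (HsK X)) v) := by
      rw [disjoint_left]
      intro w h1 h2
      have h2' := mem_nb'.1 h2
      have h3 : ¬ Same (YsK X) v w := h2'.2.1
      have h4 : Lk X v := lgt_iff.1 h2'.2.2.1
      have h5 : Lk X w := lgt_iff.1 h2'.2.2.2.1
      rcases mem_union.1 h1 with h1 | h1
      · exact (mem_nb'.1 h1).2 ⟨h4.1, h5.1, Or.inr ⟨h4.2, h5.2⟩⟩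
      · exact h3 (mem_nb'.1 h1).2.1
    rw [e1, ← card_union_of_disjoint d1, ← card_union_of_disjoint d2, ← e2, hP.reg v]
  have hO : Out δ πk G (Gxh G (YsK X) (HsK X)) (Grh G (⊥ : SimpleGraph V) (YsK X) (HsK X))
      (⊥ : SimpleGraph V) d (YsK X) ∅ (fun _ => fc d 0) (fun _ => fc d 0)
      (fun v => fc d (c v)) (fun v w => fc d (t v w))
      (fun v => (Ft (xo G X) t v).image (fc d)) univ (fun j => (A.C j).image (fc d)) X.P.th
      X.P.sd (HsK X) := by
    refine { K0c := by simp, cU := fun v hv => absurd hv (notMem_empty v),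
             cK := fun v _ => mem_univ _, cc := ?_, ts := ?_, te := ?_, tK := ?_, tc := ?_,
             ti := ?_, Et := ?_, EK := fun v _ _ => subset_univ _,
             EU := fun v hv => absurd hv (notMem_empty v), Ed := hnbv,
             CK := fun j => subset_univ _, Cc := ?_, Cd := ?_,
             UZ := fun v hv => absurd hv (notMem_empty v), ZY := ?_, av := ?_, cell := ?_,
             ld := ?_ }
    · intro v w hvw hv hw h
      have hv' : ¬ InT X Ty.K v := fun h' => notMem_empty v (hv (inS_iff.2 h'))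
      have hw' : ¬ InT X Ty.K w := fun h' => notMem_empty w (hw (inS_iff.2 h'))
      exact hX.cc v w hv' hw' hvw (fc_inj (hX.clt v hv') (hX.clt w hw') h)
    · intro v w
      change fc d (t v w) = fc d (t w v)
      rw [hX.sym v w]
    · intro v w h
      exact absurd h (by simp)
    · intro v w _ _
      exact mem_univ _
    · intro v w hvw hv h
      have hv' : ¬ InT X Ty.K v := fun h' => notMem_empty v (hv (inS_iff.2 h'))
      have h1 := gxh_iff.1 hvw
      have h2 := fc_inj (hX.lt v w h1) (hX.clt v hv') h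
      exact hX.ct v hv' (mem_image.2 ⟨w, mem_nb'.2 h1, h2⟩)
    · intro v w hw w' hw' h
      have h1 : (xo G X).Adj v w := hw.elim (fun h => gxh_iff.1 h) fun h => absurd h (by simp)
      have h2 : (xo G X).Adj v w' := hw'.elim (fun h => gxh_iff.1 h) fun h => absurd h (by simp)
      exact hX.inj v (by exact mem_coe.2 (mem_nb'.2 h1)) (by exact mem_coe.2 (mem_nb'.2 h2))
        (fc_inj (hX.lt v w h1) (hX.lt v w' h2) h)
    · intro v w _ hw
      have h1 : (xo G X).Adj v w := hw.elim (fun h => gxh_iff.1 h) fun h => absurd h (by simp)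
      exact mem_image_of_mem _ (mem_image_of_mem _ (mem_nb'.2 h1))
    · intro j
      refine (hA.Cc j).1.trans (le_of_eq ?_)
      rw [card_image_of_injOn]
      intro a ha b hb h
      exact fc_inj (mem_range.1 (hA.Clt j ha)) (mem_range.1 (hA.Clt j hb)) h
    · intro i j hij
      rw [disjoint_left]
      intro b h1 h2
      obtain ⟨b1, hb1, rfl⟩ := mem_image.1 h1
      obtain ⟨b2, hb2, he⟩ := mem_image.1 h2
      have := fc_inj (mem_range.1 (hA.Clt j hb2)) (mem_range.1 (hA.Clt i hb1)) he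
      rw [this] at hb2
      exact disjoint_left.1 (hA.Cdis i j hij) hb1 hb2
    · intro Y hY
      have h1 := hYH Y hY
      have h2 := hYU Y hY
      have h3 : η * (Y.card : ℝ) ≤ η * ((1 + θk) * d) := mul_le_mul_of_nonneg_left h2 hη0.le
      have h4 : η * ((1 + θk) * d) ≤ δ * d := by
        have : η * (1 + θk) ≤ δ := by nlinarith
        nlinarith
      linarith
    · intro v hv hvZ
      have hv' := inS_iff.1 hv
      have hL : Lk X v := ⟨hv', fun h => hvZ (mem_filter.2 ⟨h, hv'⟩)⟩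
      have h1 := hX.rK v hL
      rw [disjoint_left] at h1 ⊢
      intro b hb hb'
      obtain ⟨b1, hb1, rfl⟩ := mem_image.1 hb
      obtain ⟨b2, hb2, he⟩ := mem_image.1 hb'
      have := fc_inj (mem_range.1 (hA.Clt _ hb2)) (hFlt v b1 hb1) he
      rw [this] at hb2
      exact h1 hb1 hb2
    · intro Y hY i l
      obtain ⟨n, hn, rfl⟩ := mem_YsK.1 hY
      have h1 := hP.kC n hn i l
      have h2 : (MP_db9399_lt.cell (thn X.P n) (sdn X.P n) i l).card =
          ((pV X.P n).filter (fun v => X.P.th v = i ∧ X.P.sd v = l)).card := by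
        refine card_bij (fun v _ => v.1) ?_ ?_ ?_
        · intro v hv
          have hv' := (mem_filter.1 hv).2
          exact mem_filter.2 ⟨mem_pV'.2 v.2, hv'⟩
        · intro v _ w _ h
          exact Subtype.ext h
        · intro v hv
          obtain ⟨hv1, hv2⟩ := mem_filter.1 hv
          exact ⟨⟨v, mem_pV'.1 hv1⟩, mem_filter.2 ⟨mem_univ _, hv2⟩, rfl⟩
      have h3 : Fintype.card (Ts X.P n) = (pV X.P n).card := by
        rw [Fintype.card_subtype]
        rfl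
      rw [h2, h3] at h1
      refine h1.trans (mul_le_mul_of_nonneg_right (by linarith) hd0)
    · intro Y hY b
      obtain ⟨n, hn, rfl⟩ := mem_YsK.1 hY
      have h1 := hX.lK n hn (b : ℕ)
      refine le_trans ?_ (h1.trans (mul_le_mul_of_nonneg_right (by linarith) hd0))
      have h2 : ((pV X.P n).filter (fun v => v ∉ HsK X ∧
          b ∈ (Ft (xo G X) t v).image (fc d))) ⊆
          (pV X.P n).filter (fun v => v ∉ X.Hv ∧ (b : ℕ) ∈ Ft (xo G X) t v) := by
        intro v hv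
        obtain ⟨hv1, hv2, hv3⟩ := mem_filter.1 hv
        have h4 := mem_pV'.1 hv1
        refine mem_filter.2 ⟨hv1, fun h => hv2 (mem_filter.2 ⟨h, h4.1, by rw [h4.2]; exact hn⟩),
          ?_⟩
        have hb : fc d (b : ℕ) = b := Fin.ext (fc_val b.2)
        rw [← hb] at hv3
        exact (hmemE v _ b.2).1 hv3
      exact_mod_cast card_le_card h2
  have hOwn : OwnQ z τ ε3 G d (YsK X) ∅ (fun _ => fc d 0) (fun v => fc d (c v)) := by
    refine { abs := ?_, dif := ?_, hub := ?_, non := ?_ }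
    · intro Y hY w hw
      obtain ⟨n, hn, rfl⟩ := mem_YsK.1 hY
      exact hP.kz n hn w fun h => hw ⟨_, hY, h⟩
    · intro Y hY w w' hw hw' _ _ hne h1 h2 h
      obtain ⟨n, hn, rfl⟩ := mem_YsK.1 (mem_filter.1 hY).1
      have hw1 : ¬ InT X Ty.K w := fun h' => hw (inS_iff.2 h')
      have hw1' : ¬ InT X Ty.K w' := fun h' => hw' (inS_iff.2 h')
      exact hX.dif n hn w w' hw1 hw1' hne h1 h2 (fc_inj (hX.clt w hw1) (hX.clt w' hw1') h)
    · intro Y hY w _ _ _
      have h1 : MP_db9399_sx.ubl G (∅ : Finset V) (fun _ => fc d 0) Y (fc d (c w)) = ∅ := by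
        rw [MP_db9399_sx.ubl, filter_eq_empty_iff]
        rintro v _ ⟨w', hw', _⟩
        exact notMem_empty w' hw'
      rw [h1, card_empty]
      have : (0 : ℝ) ≤ z / 4 * Y.card := by positivity
      simpa using this
    · intro Y hY b
      obtain ⟨n, hn, rfl⟩ := mem_YsK.1 (mem_filter.1 hY).1
      refine le_trans ?_ (hX.non n hn (b : ℕ))
      have h1 : (univ.filter (fun w => ¬ InS (YsK X) w ∧ w ∉ (∅ : Finset V) ∧
          fc d (c w) = b ∧ ((nb G w ∩ pV X.P n).card : ℝ) < τ * d)) ⊆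
          univ.filter (fun w => ¬ InT X Ty.K w ∧ c w = (b : ℕ) ∧
            ((nb G w ∩ pV X.P n).card : ℝ) < τ * d) := by
        intro w hw
        obtain ⟨_, hw1, _, hw3, hw4⟩ := mem_filter.1 hw
        have hw1' : ¬ InT X Ty.K w := fun h' => hw1 (inS_iff.2 h')
        refine mem_filter.2 ⟨mem_univ _, hw1', ?_, hw4⟩
        rw [← hw3, fc_val (hX.clt w hw1')]
      exact_mod_cast sum_le_sum_of_subset h1
  have hCu : ∀ j, (((A.C j).image (fc d)).card : ℝ) ≤ πk * d + 1 := by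
    intro j
    refine le_trans ?_ (hA.Cc j).2
    exact_mod_cast card_image_le
  have hst : ∀ Y ∈ shs d (YsK X), ((∑ v ∈ (Y \ HsK X) \ (∅ : Finset V),
      ((nb G v).filter (fun y => y ∈ (∅ : Finset V) ∧ ¬ InS (YsK X) y ∧
        fc d 0 ∈ (Ft (xo G X) t v).image (fc d))).card : ℕ) : ℝ) ≤ ε * Y.card := by
    intro Y _
    have h3 : (0 : ℝ) ≤ ε * Y.card := by positivity
    refine le_trans (le_of_eq ?_) h3
    rw [sum_eq_zero, Nat.cast_zero]
    intro v _
    rw [card_eq_zero, filter_eq_empty_iff]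
    rintro y _ ⟨hy, _⟩
    exact notMem_empty y hy
  obtain ⟨c', t3, hT, _, _⟩ := hKQ τ G ⊥ (YsK X) ∅ (HsK X) _ _ _ _ _ _ _ _ _ _
    (fun _ => fc d 0) hG (fun Y hY => (hYH Y hY).trans
      (mul_le_mul_of_nonneg_right hη2 (Nat.cast_nonneg _))) hO hCu hOwn
    (fun y hy => absurd hy (notMem_empty y)) (fun y hy => absurd hy (notMem_empty y)) hst
  refine ⟨fun v => (c' v : ℕ), fun v w => (t3 v w : ℕ), ?_⟩
  refine { clt := fun v => (c' v).2, cc := ?_, sym := ?_, tlt := fun v w _ => (t3 v w).2,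
           inj := ?_, tc := ?_ }
  · intro v w hvw h
    exact hT.1 v w hvw (Fin.ext h)
  · intro v w
    change ((t3 v w : Fin (d + 2)) : ℕ) = t3 w v
    rw [hT.2.1 v w]
  · intro v w hw w' hw' h
    exact hT.2.2.1 v hw hw' (Fin.ext h)
  · intro v w hvw h
    exact hT.2.2.2 v w hvw (Fin.ext h)

end

/-- **KX** -/
theorem stmt_KX (hKQ : MP_db9399_xq.Stmt_KQ.{u}) : Stmt_KX.{u} := by
  obtain ⟨πk, θk, ε2, ε, hπ1, hπ2, hθ0, hθ1, hε2, hε, hKQ⟩ := hKQ
  refine ⟨πk, θk, hπ1, hπ2, hθ0, hθ1, ?_⟩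
  intro z hz hz1
  obtain ⟨δ, ε3, θ', η0, d0, hδ, hε3, hθ', hη0, hKQ⟩ := hKQ z hz hz1
  have hm : 0 < min (δ / 2) (min η0 (1 / 10 ^ 4)) :=
    lt_min (by linarith) (lt_min hη0 (by norm_num))
  refine ⟨θ', min (δ / 2) (min η0 (1 / 10 ^ 4)), ε3, max d0 1, hθ', hm, hε3, ?_⟩
  intro C g τ a M J S V _ N G d X A t c hd hP hA hX
  have hm1 : min (δ / 2) (min η0 (1 / 10 ^ 4)) ≤ δ / 2 := min_le_left _ _
  have hm2 : min (δ / 2) (min η0 (1 / 10 ^ 4)) ≤ η0 := (min_le_right _ _).trans (min_le_left _ _)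
  have hm3 : min (δ / 2) (min η0 (1 / 10 ^ 4)) ≤ 1 / 10 ^ 4 :=
    (min_le_right _ _).trans (min_le_right _ _)
  exact KX_main hε2 hε hθ0 hθ1 hz hδ (by linarith) hm2 hm3 hm G d
    (le_trans (le_max_right _ _) hd) X A t c hP hA hX
    (fun τ G EH Ys UH Hs c0 tu cc t E K0 C p a Z μ => hKQ τ G EH d Ys UH Hs c0 tu cc t E K0 C p
      a Z μ (le_trans (le_max_left _ _) hd))

end Pool.Agent.Work.MP_db9399_xf
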