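import Pool.Agent.Work.MP_db9399_xf_helper62.BX2

/-!
# MP_db9399, all scales: `Stmt_BX` from `Stmt_RGX`, `Stmt_SELP`, `Stmt_OWNX`, `Stmt_OCB`,
`Stmt_LOCB3`, `Stmt_LOCN3` (helper62)
-/

set_option autoImplicit false
set_option linter.unusedSectionVars false

namespace Pool.Agent.Work.MP_db9399_xf

open Finset Classical
open Pool.Agent.Work.MP_db9399_all (nb)
open Pool.Agent.Work.MP_db9399_nc (nn)
open Pool.Agent.Work.MP_db9399_lt (us)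
open Pool.Agent.Work.MP_db9399_da
open Pool.Agent.Work.MP_db9399_da.helper62 (mem_nb mem_us)

universe u

/-- constants as functions -/
theorem sk3 {P : ℝ → ℝ → ℝ → ℝ → ℕ → Prop}
    (h : ∀ ρ : ℝ, 0 < ρ → ρ ≤ 1 → ∃ π0 : ℝ, 0 < π0 ∧ ∀ π : ℝ, 0 < π → π ≤ π0 →
      ∃ κ0 : ℝ, 0 < κ0 ∧ ∀ κ : ℝ, 0 < κ → κ ≤ κ0 → ∃ (θ : ℝ) (d0 : ℕ), 0 < θ ∧ P ρ π κ θ d0) :
    ∃ (a : ℝ → ℝ) (b : ℝ → ℝ → ℝ) (c : ℝ → ℝ → ℝ → ℝ) (n : ℝ → ℝ → ℝ → ℕ),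
      (∀ ρ, 0 < a ρ) ∧ (∀ ρ π, 0 < b ρ π) ∧ (∀ ρ π κ, 0 < c ρ π κ) ∧
      ∀ ρ π κ : ℝ, 0 < ρ → ρ ≤ 1 → 0 < π → π ≤ a ρ → 0 < κ → κ ≤ b ρ π →
        P ρ π κ (c ρ π κ) (n ρ π κ) := by
  have h1 : ∀ ρ : ℝ, ∃ π0 : ℝ, 0 < π0 ∧ (0 < ρ → ρ ≤ 1 → ∀ π : ℝ, 0 < π → π ≤ π0 →
      ∃ κ0 : ℝ, 0 < κ0 ∧ ∀ κ : ℝ, 0 < κ → κ ≤ κ0 →
        ∃ (θ : ℝ) (d0 : ℕ), 0 < θ ∧ P ρ π κ θ d0) := by
    intro ρ
    by_cases hρ : 0 < ρ ∧ ρ ≤ 1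
    · obtain ⟨π0, h0, h2⟩ := h ρ hρ.1 hρ.2
      exact ⟨π0, h0, fun _ _ => h2⟩
    · exact ⟨1, one_pos, fun h1 h2 => absurd ⟨h1, h2⟩ hρ⟩
  choose a ha1 ha2 using h1
  have h2 : ∀ ρ π : ℝ, ∃ κ0 : ℝ, 0 < κ0 ∧ (0 < ρ → ρ ≤ 1 → 0 < π → π ≤ a ρ →
      ∀ κ : ℝ, 0 < κ → κ ≤ κ0 → ∃ (θ : ℝ) (d0 : ℕ), 0 < θ ∧ P ρ π κ θ d0) := by
    intro ρ π
    by_cases hρ : (0 < ρ ∧ ρ ≤ 1) ∧ 0 < π ∧ π ≤ a ρ
    · obtain ⟨κ0, h0, h2⟩ := ha2 ρ hρ.1.1 hρ.1.2 π hρ.2.1 hρ.2.2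
      exact ⟨κ0, h0, fun _ _ _ _ => h2⟩
    · exact ⟨1, one_pos, fun h1 h2 h3 h4 => absurd ⟨⟨h1, h2⟩, h3, h4⟩ hρ⟩
  choose b hb1 hb2 using h2
  have h3 : ∀ ρ π κ : ℝ, ∃ (θ : ℝ) (d0 : ℕ), 0 < θ ∧ (0 < ρ → ρ ≤ 1 → 0 < π → π ≤ a ρ →
      0 < κ → κ ≤ b ρ π → P ρ π κ θ d0) := by
    intro ρ π κ
    by_cases hρ : (0 < ρ ∧ ρ ≤ 1) ∧ (0 < π ∧ π ≤ a ρ) ∧ 0 < κ ∧ κ ≤ b ρ π
    · obtain ⟨θ, d0, h0, h2⟩ := hb2 ρ π hρ.1.1 hρ.1.2 hρ.2.1.1 hρ.2.1.2 κ hρ.2.2.1 hρ.2.2.2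
      exact ⟨θ, d0, h0, fun _ _ _ _ _ _ => h2⟩
    · exact ⟨1, 0, one_pos, fun h1 h2 h3 h4 h5 h6 => absurd ⟨⟨h1, h2⟩, ⟨h3, h4⟩, h5, h6⟩ hρ⟩
  choose c n hc1 hc2 using h3
  exact ⟨a, b, c, n, ha1, hb1, hc1, hc2⟩

/-- larger thresholds -/
theorem Adm.mono {T T' : Thr} {s : Scl} (h : Adm T s) (h1 : ∀ ρ, T.π0 ρ ≤ T'.π0 ρ)
    (h2 : ∀ ρ π, T.κ0 ρ π ≤ T'.κ0 ρ π) (h3 : ∀ ρ π κ, T.ε0 ρ π κ ≤ T'.ε0 ρ π κ)
    (h4 : ∀ ρ π κ ε, T.ζ0 ρ π κ ε ≤ T'.ζ0 ρ π κ ε)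
    (h5 : ∀ ρ π κ ε ζ, T.θ0 ρ π κ ε ζ ≤ T'.θ0 ρ π κ ε ζ) : Adm T' s :=
  ⟨h.ρ, ⟨h.π.1, h.π.2.trans (h1 _)⟩, ⟨h.κ.1, h.κ.2.trans (h2 _ _)⟩,
    ⟨h.ε.1, h.ε.2.trans (h3 _ _ _)⟩, ⟨h.ζ.1, h.ζ.2.trans (h4 _ _ _ _)⟩,
    ⟨h.θ.1, h.θ.2.trans (h5 _ _ _ _ _)⟩⟩

/-- minimum of two threshold functions -/
def Thr.inf (T T' : Thr) : Thr where
  π0 := fun ρ => min (T.π0 ρ) (T'.π0 ρ)
  κ0 := fun ρ π => min (T.κ0 ρ π) (T'.κ0 ρ π)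
  ε0 := fun ρ π κ => min (T.ε0 ρ π κ) (T'.ε0 ρ π κ)
  ζ0 := fun ρ π κ ε => min (T.ζ0 ρ π κ ε) (T'.ζ0 ρ π κ ε)
  θ0 := fun ρ π κ ε ζ => min (T.θ0 ρ π κ ε ζ) (T'.θ0 ρ π κ ε ζ)

theorem Thr.inf_pos {T T' : Thr} (h : T.Pos) (h' : T'.Pos) : (T.inf T').Pos :=
  ⟨fun ρ h1 => lt_min (h.π0 ρ h1) (h'.π0 ρ h1),
    fun ρ π h1 h2 => lt_min (h.κ0 ρ π h1 h2) (h'.κ0 ρ π h1 h2),
    fun ρ π κ h1 h2 h3 => lt_min (h.ε0 ρ π κ h1 h2 h3) (h'.ε0 ρ π κ h1 h2 h3),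
    fun ρ π κ ε h1 h2 h3 h4 => lt_min (h.ζ0 ρ π κ ε h1 h2 h3 h4) (h'.ζ0 ρ π κ ε h1 h2 h3 h4),
    fun ρ π κ ε ζ h1 h2 h3 h4 h5 => lt_min (h.θ0 ρ π κ ε ζ h1 h2 h3 h4 h5)
      (h'.θ0 ρ π κ ε ζ h1 h2 h3 h4 h5)⟩

theorem Adm.inl {T T' : Thr} {s : Scl} (h : Adm (T.inf T') s) : Adm T s :=
  h.mono (fun _ => min_le_left _ _) (fun _ _ => min_le_left _ _) (fun _ _ _ => min_le_left _ _)
    (fun _ _ _ _ => min_le_left _ _) (fun _ _ _ _ _ => min_le_left _ _)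

theorem Adm.inr {T T' : Thr} {s : Scl} (h : Adm (T.inf T') s) : Adm T' s :=
  h.mono (fun _ => min_le_right _ _) (fun _ _ => min_le_right _ _) (fun _ _ _ => min_le_right _ _)
    (fun _ _ _ _ => min_le_right _ _) (fun _ _ _ _ _ => min_le_right _ _)

/-- larger bound for the sums -/
theorem SelX.mono {V : Type u} [Fintype V] {N J : ℕ} {g : ℝ} {x x' : Fin J → ℝ} {S : Fin J → Scl}
    {G : SimpleGraph V} {d : ℕ} {X : XD V N J} {t : V → V → ℕ} {c : V → ℕ}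
    {Qn : Fin N → Bool → Finset ℕ} {P2n : Fin N → Finset ℕ} (h : SelX g x S G d X t c Qn P2n)
    (hx : ∀ s, x s ≤ x' s) : SelX g x' S G d X t c Qn P2n :=
  { h with
    sm := fun n hn i => (h.sm n hn i).trans
      (mul_le_mul_of_nonneg_right (hx _) (Nat.cast_nonneg _)) }

theorem pow_le_mul {θ : ℝ} (h : 0 < θ) {d : ℕ} (hd : ⌈(2 / θ) ^ 2⌉₊ + 1 ≤ d) :
    2 * (d : ℝ) ^ (1 / 100 : ℝ) ≤ θ * d := by
  have h1 : (1 : ℝ) ≤ d := by exact_mod_cast (by omega : 1 ≤ d)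
  have h2 : (2 / θ) ^ 2 ≤ d := (Nat.le_ceil _).trans (by exact_mod_cast (by omega))
  have h3 : (d : ℝ) ^ (1 / 100 : ℝ) ≤ (d : ℝ) ^ (1 / 2 : ℝ) :=
    Real.rpow_le_rpow_of_exponent_le h1 (by norm_num)
  have h4 : (d : ℝ) ^ (1 / 2 : ℝ) = Real.sqrt d := (Real.sqrt_eq_rpow _).symm
  have h5 : 2 / θ ≤ Real.sqrt d := Real.le_sqrt_of_sq_le h2
  have h6 : Real.sqrt d * Real.sqrt d = d := Real.mul_self_sqrt (Nat.cast_nonneg _)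
  rw [h4] at h3
  have h7 : 2 ≤ θ * Real.sqrt d := by
    rw [div_le_iff₀ h] at h5
    linarith
  have h8 := Real.sqrt_nonneg (d : ℝ)
  nlinarith

theorem stmt_BX (hR : Stmt_RGX.{u}) (hS : Stmt_SELP.{u}) (hW : Stmt_OWNX.{u}) (hO : Stmt_OCB.{u})
    (hB : Stmt_LOCB3.{u}) (hN : Stmt_LOCN3.{u}) : Stmt_BX.{u} := by
  intro πk C g z τ e M hk1 hk2 hC hg hg1 hz hz1 hτ hτe
  obtain ⟨πB, κB, θB, dB, b1, b2, b3, b4⟩ := sk3 (fun ρ h1 h2 => hB C ρ hC h1 h2)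
  obtain ⟨πN, κN, θN, dN, n1, n2, n3, n4⟩ :=
    sk3 (fun ρ h1 (_ : ρ ≤ 1) => hN C (g / 2) ρ hC (by linarith) h1)
  obtain ⟨T1, x', hT1, hx', hO1⟩ := hO πk C g z τ e M (fun ρ π κ => θB (min ρ (1 / 1000)) π κ)
    hk1 hk2 hC hg hg1 hz hz1 hτ hτe (fun ρ π κ _ _ _ => b3 _ _ _)
  obtain ⟨T2, hT2, hS1⟩ := hS πk C g z τ e M (fun ρ π κ => min (x' ρ π κ) (θN ρ π κ))
    hk1 hk2 hC hg hg1 hz hz1 hτ hτe
    (fun ρ π κ h1 h2 h3 => lt_min (hx' ρ π κ h1 h2 h3) (n3 ρ π κ))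
  obtain ⟨T3, hT3, hR1⟩ := hR πk C g z τ e M hk1 hk2 hC hg hg1 hz hz1 hτ hτe
  obtain ⟨T4, hT4, hW1⟩ := hW πk C g z τ e M hk1 hk2 hC hg hg1 hz hz1 hτ hτe
  obtain ⟨T5, hT5⟩ : ∃ T5 : Thr, T5 =
      { π0 := fun ρ => min (πB (min ρ (1 / 1000))) (πN ρ)
        κ0 := fun ρ π => min (κB (min ρ (1 / 1000)) π) (κN ρ π)
        ε0 := fun ρ π κ => min (θB (min ρ (1 / 1000)) π κ) (θN ρ π κ)
        ζ0 := fun ρ π κ ε => min (min (θB (min ρ (1 / 1000)) π κ) (θN ρ π κ / 2)) (τ / 2)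
        θ0 := fun ρ π κ ε ζ => θN ρ π κ / 201 } := ⟨_, rfl⟩
  have hT5P : T5.Pos := by
    rw [hT5]
    exact
      { π0 := fun ρ h => lt_min (b1 _) (n1 _)
        κ0 := fun ρ π h h' => lt_min (b2 _ _) (n2 _ _)
        ε0 := fun ρ π κ h h' h'' => lt_min (b3 _ _ _) (n3 _ _ _)
        ζ0 := fun ρ π κ ε h h' h'' h3 => lt_min (lt_min (b3 _ _ _)
          (by have := n3 ρ π κ; positivity)) (by positivity)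
        θ0 := fun ρ π κ ε ζ _ _ _ _ _ => by have := n3 ρ π κ; positivity }
  refine ⟨T1.inf (T2.inf (T3.inf (T4.inf T5))), Thr.inf_pos hT1 (Thr.inf_pos hT2
    (Thr.inf_pos hT3 (Thr.inf_pos hT4 hT5P))), ?_⟩
  intro J S c' hA hc'
  have hA5 : ∀ s, Adm T5 (S s) := fun s => (hA s).inr.inr.inr.inr
  obtain ⟨d1, hO2⟩ := hO1 J S c' (fun s => (hA s).inl) hc'
  obtain ⟨d2, hS2⟩ := hS1 J S c' (fun s => (hA s).inr.inl) hc'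
  obtain ⟨d3, hR2⟩ := hR1 J S c' (fun s => (hA s).inr.inr.inl) hc'
  obtain ⟨d4, hW2⟩ := hW1 J S c' (fun s => (hA s).inr.inr.inr.inl) hc'
  refine ⟨d1 + d2 + d3 + d4 + 1 + ∑ s, (dB (min (S s).ρ (1 / 1000)) (S s).π (S s).κ +
    dN (S s).ρ (S s).π (S s).κ + ⌈2 / θN (S s).ρ (S s).π (S s).κ⌉₊ +
    (⌈(2 / θN (S s).ρ (S s).π (S s).κ) ^ 2⌉₊ + 1)), ?_⟩
  intro V _ N G d X A t0 cP m θk θ' η hd hP hA0 hPre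
  have hds : ∀ s, dB (min (S s).ρ (1 / 1000)) (S s).π (S s).κ +
      dN (S s).ρ (S s).π (S s).κ + ⌈2 / θN (S s).ρ (S s).π (S s).κ⌉₊ +
      (⌈(2 / θN (S s).ρ (S s).π (S s).κ) ^ 2⌉₊ + 1) ≤ d := by
    intro s
    have := single_le_sum (f := fun s => dB (min (S s).ρ (1 / 1000)) (S s).π (S s).κ +
      dN (S s).ρ (S s).π (S s).κ + ⌈2 / θN (S s).ρ (S s).π (S s).κ⌉₊ +
      (⌈(2 / θN (S s).ρ (S s).π (S s).κ) ^ 2⌉₊ + 1))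
      (fun _ _ => Nat.zero_le _) (mem_univ s)
    exact le_trans this (by omega)
  obtain ⟨t, cR, hRg⟩ := hR2 G d X A t0 cP m θk θ' η (by omega) hP hA0 hPre
  obtain ⟨Qn, P2n, hSl⟩ := hS2 G d X A t cR θk θ' η (by omega) hP hA0 hRg
  obtain ⟨c, hOw⟩ := hW2 G d X A t cR Qn P2n _ θk θ' η (by omega) hP hA0 hRg hSl
  obtain ⟨t1, c0, c1, U1, U2, hR1⟩ := hO2 G d X A t cR Qn P2n c θk θ' η (by omega) hP hA0 hRg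
    (hSl.mono fun s => min_le_left _ _) hOw
  have hex : ∀ n, ∃ (cb : Ts X.P n → ℕ) (s : Ts X.P n → Ts X.P n → ℕ),
      (∀ v w, s v w = s w v) ∧
      (X.P.ty n = Ty.B → (∀ v, cb v ∈ oc c0 c1 U1 U2 v.1) ∧
        PEF (bk G X.P n) d (fun v => insert (cb v) (Fp (xt G X) X t1 n v)) s) ∧
      (X.P.ty n = Ty.N → PEF (bk G X.P n) d (Fpo (xt G X) X t1 c n) s) := by
    intro n
    have a0 := hA5 (X.sc n)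
    have a1 := a0.ρ
    have a2 := a0.π
    have a3 := a0.κ
    have a4 := a0.ε
    have a5 := a0.ζ
    have a6 := a0.θ
    rw [hT5] at a2 a3 a4 a5 a6
    simp only [le_min_iff] at a2 a3 a4 a5 a6
    rcases hty : X.P.ty n with _ | _ | _ | _
    · exact ⟨fun _ => 0, fun _ _ => 0, fun _ _ => rfl, by simp, by simp⟩
    · exact ⟨fun _ => 0, fun _ _ => 0, fun _ _ => rfl, by simp, by simp⟩
    · -- type N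
      have e0 : Fpo (xt G X) X t1 c n = Fpo (xt G X) X t c n := by
        funext v
        unfold Fpo
        congr 1
        refine Ft_congr (fun _ => Iff.rfl) fun w h => hR1.teq v.1 w h fun h' => ?_
        have := ty_uni h'.1 (inT_of hty v)
        exact absurd this (by decide)
      have k1 := n3 (S (X.sc n)).ρ (S (X.sc n)).π (S (X.sc n)).κ
      have k2 : 1 ≤ θN (S (X.sc n)).ρ (S (X.sc n)).π (S (X.sc n)).κ / 2 * d := by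
        have h1 := Nat.le_ceil (2 / θN (S (X.sc n)).ρ (S (X.sc n)).π (S (X.sc n)).κ)
        have h2 : ((⌈2 / θN (S (X.sc n)).ρ (S (X.sc n)).π (S (X.sc n)).κ⌉₊ : ℕ) : ℝ) ≤ d := by
          have := hds (X.sc n)
          exact_mod_cast (by omega : ⌈2 / θN (S (X.sc n)).ρ (S (X.sc n)).π
            (S (X.sc n)).κ⌉₊ ≤ d)
        have h3 := h1.trans h2
        rw [div_le_iff₀ k1] at h3
        linarith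
      have k4 := LI_N hP hRg hSl hOw hC hty a5.2.1.2 k2 a6.1.le a6.2 (min_le_right _ _)
        (ηl := g / 2 / 100) (by linarith)
      obtain ⟨s, hs⟩ := n4 (S (X.sc n)).ρ (S (X.sc n)).π (S (X.sc n)).κ a1.1 a1.2 a2.1
        a2.2.2 a3.1 a3.2.2 (bk G X.P n) d (sdn X.P n) (ptn X.P n) (Qn n) (P2n n)
        (Fpo (xt G X) X t c n) (by
          have := hds (X.sc n)
          omega) k4.1 (LN_N hP hRg hOw hty a4.2.2) k4.2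
      refine ⟨fun _ => 0, s, hs.1, by simp, fun _ => ?_⟩
      rw [e0]
      exact hs
    · -- type B
      obtain ⟨cb, s, h1, h2⟩ := b4 (min (S (X.sc n)).ρ (1 / 1000)) (S (X.sc n)).π
        (S (X.sc n)).κ (lt_min a1.1 (by norm_num)) ((min_le_left _ _).trans a1.2) a2.1
        a2.2.1 a3.1 a3.2.1 (bk G X.P n) d (sdn X.P n) (ptn X.P n) (Qn n) (P2n n)
        (Fp (xt G X) X t1 n) (fun v => c0 v.1) (fun v => c1 v.1)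
        (Tn X n U1) (Tn X n U2) (by
          have := hds (X.sc n)
          omega)
        (LI_B hP hSl hR1 hC hty a5.2.1.1 le_rfl)
        (LB_B hP hR1 hty (b3 _ _ _).le a4.2.1 le_rfl)
      refine ⟨cb, s, h2.1, fun _ => ⟨fun v => ?_, h2⟩, by simp⟩
      have := h1 v
      rw [oc_Tn] at this
      exact this
  choose cB s s1 s2 s3 using hex
  have hζτ : ∀ s, (S s).ζ < τ := by
    intro s
    have h1 := (hA5 s).ζ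
    rw [hT5] at h1
    simp only [le_min_iff] at h1
    linarith [h1.2.2]
  obtain ⟨t2, c2, h1, _, _⟩ := glueX hP hRg hSl hOw hR1 hζτ (by omega) cB s s1
    (fun n hn => (s2 n hn).1) (fun n hn => (s2 n hn).2) (fun n hn => s3 n hn)
  rw [add_halves] at h1
  exact ⟨t2, c2, h1⟩

end Pool.Agent.Work.MP_db9399_xf
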