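import Pool.Agent.Work.MP_db9399_xf_helper62.BX1

/-!
# MP_db9399, all scales: assembly of BX, the inputs of the local theorems (helper62)
-/

set_option autoImplicit false
set_option linter.unusedSectionVars false

namespace Pool.Agent.Work.MP_db9399_xf

open Finset Classical
open Pool.Agent.Work.MP_db9399_all (nb)
open Pool.Agent.Work.MP_db9399_nc (nn)
open Pool.Agent.Work.MP_db9399_lt (us)
open Pool.Agent.Work.MP_db9399_da
open Pool.Agent.Work.MP_db9399_da.helper62 (mem_nb mem_us gl gl_eq nb_split card_nb_bk dec_irrel)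

universe u

section
variable {V : Type u} [Fintype V] {N J : ℕ}

/-- the thin edges at a vertex outside the pieces of type K are in `xt` -/
theorem xt_iff {G : SimpleGraph V} {X : XD V N J} {v : V} (hv : ¬ InT X Ty.K v) (w : V) :
    (xt G X).Adj v w ↔ (thin G X.P).Adj v w :=
  ⟨fun h => h.1, fun h => ⟨h, fun h' => hv h'.1.1⟩⟩

theorem nb_xt {G : SimpleGraph V} {X : XD V N J} {v : V} (hv : ¬ InT X Ty.K v) :
    nb (xt G X) v = nb (thin G X.P) v := by
  ext w
  rw [mem_nb, mem_nb]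
  exact xt_iff hv w

theorem card_Ft {T : SimpleGraph V} {t : V → V → ℕ} {v : V}
    (h : Set.InjOn (t v) (nb T v : Set V)) : (Ft T t v).card = (nb T v).card :=
  card_image_of_injOn h

theorem Ft_lt {d : ℕ} {T : SimpleGraph V} {t : V → V → ℕ}
    (h : ∀ v w, T.Adj v w → t v w < d + 2) (v : V) : ∀ b ∈ Ft T t v, b < d + 2 := by
  intro b hb
  obtain ⟨w, hw, rfl⟩ := mem_image.1 hb
  exact h v w ((mem_nb T v w).1 hw)

theorem inT_of {X : XD V N J} {n : Fin N} {T : Ty} (hn : X.P.ty n = T) (v : Ts X.P n) :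
    InT X T v.1 := ⟨v.2.1, by rw [v.2.2]; exact hn⟩

theorem not_K {X : XD V N J} {n : Fin N} (hn : X.P.ty n = Ty.N ∨ X.P.ty n = Ty.B)
    (v : Ts X.P n) : ¬ InT X Ty.K v.1 := by
  intro h
  have := h.2
  rw [v.2.2] at this
  rcases hn with hn | hn <;> rw [hn] at this <;> exact absurd this (by decide)

/-- degrees in the bulk graph -/
theorem deg_bkX {C g z θk θ' η a : ℝ} {M : ℕ} {S : Fin J → Scl} {G : SimpleGraph V} {d : ℕ}
    {X : XD V N J} (hP : PcX C g z θk θ' η a M S G d X) {n : Fin N}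
    (hn : X.P.ty n = Ty.N ∨ X.P.ty n = Ty.B) {t : V → V → ℕ}
    (hinj : ∀ v, Set.InjOn (t v) (nb (xt G X) v : Set V)) (v : Ts X.P n) :
    (nb (bk G X.P n) v).card + (Fp (xt G X) X t n v).card = d := by
  have h1 := nb_split G X.P v.1
  have h2 := card_nb_bk G X.P n v
  have h3 : (Fp (xt G X) X t n v).card = (nb (thin G X.P) v.1).card := by
    unfold Fp
    rw [card_Ft (hinj v.1), nb_xt (not_K hn v)]
  rw [h2, h3, h1, hP.reg]

theorem card_FpX {C g z θk θ' η a : ℝ} {M : ℕ} {S : Fin J → Scl} {G : SimpleGraph V} {d : ℕ}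
    {X : XD V N J} (hP : PcX C g z θk θ' η a M S G d X) {n : Fin N}
    (hn : X.P.ty n = Ty.N ∨ X.P.ty n = Ty.B) {t : V → V → ℕ} (v : Ts X.P n) :
    ((Fp (xt G X) X t n v).card : ℝ) ≤ (S (X.sc n)).ζ * d := by
  have h1 : (Fp (xt G X) X t n v).card ≤ (nb (thin G X.P) v.1).card := by
    unfold Fp Ft
    rw [← nb_xt (not_K hn v)]
    exact card_image_le
  have h2 := hP.thd v.1 (by
    rcases hn with hn | hn
    · exact Or.inl (inT_of hn v)
    · exact Or.inr (inT_of hn v))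
  rw [v.2.2] at h2
  exact le_trans (by exact_mod_cast h1) h2

theorem card_TsX {C g z θk θ' η a : ℝ} {M : ℕ} {S : Fin J → Scl} {G : SimpleGraph V} {d : ℕ}
    {X : XD V N J} (hP : PcX C g z θk θ' η a M S G d X) (hC : 0 ≤ C) (n : Fin N) :
    (Fintype.card (Ts X.P n) : ℝ) ≤ C * d := by
  rcases isEmpty_or_nonempty (Ts X.P n) with h | h
  · rw [Fintype.card_eq_zero, Nat.cast_zero]
    positivity
  · obtain ⟨v⟩ := h
    obtain ⟨k, hk⟩ := Option.ne_none_iff_exists'.1 (hP.cln v.1 v.2.1)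
    refine le_trans ?_ (hP.clc k)
    have h1 : Fintype.card (Ts X.P n) ≤ (univ.filter (fun v => X.cq v = some k)).card := by
      rw [Fintype.card_subtype]
      apply card_le_card
      intro w hw
      rw [mem_filter] at hw ⊢
      refine ⟨mem_univ _, ?_⟩
      rw [← hk]
      exact hP.clp w v.1 hw.2.1 v.2.1 (by rw [hw.2.2, v.2.2])
    exact_mod_cast h1

/-- `LI3` for a piece of type B -/
theorem LI_B {C g z θk θ' η a τ e : ℝ} {M : ℕ} {S : Fin J → Scl} {G : SimpleGraph V} {d : ℕ}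
    {X : XD V N J} {t t1 : V → V → ℕ} {cR c c0 c1 : V → ℕ} {T1 T2 : Finset V}
    {x x1 : Fin J → ℝ} {Qn : Fin N → Bool → Finset ℕ} {P2n : Fin N → Finset ℕ}
    (hP : PcX C g z θk θ' η a M S G d X) (hS : SelX g x1 S G d X t cR Qn P2n)
    (hO : OcbX τ e x S G d X t c Qn P2n t1 c0 c1 T1 T2) (hC : 1 ≤ C) {n : Fin N}
    (hn : X.P.ty n = Ty.B) {θl : ℝ} (hζ : (S (X.sc n)).ζ ≤ θl) (hx : x (X.sc n) ≤ θl) :
    LI3 (bk G X.P n) d C (min (S (X.sc n)).ρ (1 / 1000)) (S (X.sc n)).π (S (X.sc n)).κ θl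
      (min (S (X.sc n)).ρ (1 / 1000) / 100) (sdn X.P n) (ptn X.P n) (Qn n)
      (P2n n) (Fp (xt G X) X t1 n) := by
  have hd : (0 : ℝ) ≤ d := Nat.cast_nonneg d
  have hxd : x (X.sc n) * d ≤ θl * d := mul_le_mul_of_nonneg_right hx hd
  have hρ : min (S (X.sc n)).ρ (1 / 1000) ≤ (S (X.sc n)).ρ := min_le_left _ _
  exact
    { VC := card_TsX hP (by linarith) n
      Flt := fun v => Ft_lt hO.lt v.1
      Fx := fun v => (card_FpX hP (Or.inr hn) v).trans (mul_le_mul_of_nonneg_right hζ hd)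
      load := fun b => (hO.lB n hn b).trans hxd
      Qlt := hS.Qlt n (Or.inr hn)
      Plt := hS.Plt n (Or.inr hn)
      QQ := hS.QQ n (Or.inr hn)
      QP := hS.QP n (Or.inr hn)
      Qc := hS.Qc n (Or.inr hn)
      Pc := hS.Pc n (Or.inr hn)
      FQ := hO.rB n hn
      sgQ := fun i b hb => (hO.gB n hn i b hb).trans hxd
      sl1 := hO.l1B n hn
      cutG := by
        intro T
        have h1 : min (S (X.sc n)).ρ (1 / 1000) * T.card * (univ \ T).card ≤
            ∑ v ∈ T, ((nb (bk G X.P n) v \ T).card : ℝ) :=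
          (mul_le_mul_of_nonneg_right (mul_le_mul_of_nonneg_right hρ
            (Nat.cast_nonneg _)) (Nat.cast_nonneg _)).trans (hP.cut n (Or.inr hn) T)
        exact dec_irrel (p := fun (_ : DecidableEq (Ts X.P n)) =>
          min (S (X.sc n)).ρ (1 / 1000) * T.card * (univ \ T).card ≤
            ∑ v ∈ T, ((nb (bk G X.P n) v \ T).card : ℝ)) h1
      cutP := by
        intro i T hT
        have h1 : min (S (X.sc n)).ρ (1 / 1000) * T.card * (prt (ptn X.P n) i \ T).card ≤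
            ∑ v ∈ T, (((nb (bk G X.P n) v \ T) ∩
              qtr (sdn X.P n) (ptn X.P n) (!(sdn X.P n v)) i).card : ℝ) :=
          (mul_le_mul_of_nonneg_right (mul_le_mul_of_nonneg_right hρ
            (Nat.cast_nonneg _)) (Nat.cast_nonneg _)).trans (hP.cutP n (Or.inr hn) i T hT)
        exact dec_irrel (p := fun (_ : DecidableEq (Ts X.P n)) =>
          min (S (X.sc n)).ρ (1 / 1000) * T.card * (prt (ptn X.P n) i \ T).card ≤
            ∑ v ∈ T, (((nb (bk G X.P n) v \ T) ∩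
              qtr (sdn X.P n) (ptn X.P n) (!(sdn X.P n v)) i).card : ℝ)) h1 }

theorem oc_Tn {X : XD V N J} {n : Fin N} (c0 c1 : V → ℕ) (T1 T2 : Finset V) (v : Ts X.P n) :
    oc (fun v : Ts X.P n => c0 v.1) (fun v => c1 v.1) (Tn X n T1) (Tn X n T2) v =
      oc c0 c1 T1 T2 v.1 := by
  unfold oc Tn
  simp only [mem_filter, mem_univ, true_and]

/-- `LB3` -/
theorem LB_B {C g z θk θ' η a τ e : ℝ} {M : ℕ} {S : Fin J → Scl} {G : SimpleGraph V} {d : ℕ}
    {X : XD V N J} {t t1 : V → V → ℕ} {c c0 c1 : V → ℕ} {T1 T2 : Finset V}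
    {x : Fin J → ℝ} {Qn : Fin N → Bool → Finset ℕ} {P2n : Fin N → Finset ℕ}
    (hP : PcX C g z θk θ' η a M S G d X)
    (hO : OcbX τ e x S G d X t c Qn P2n t1 c0 c1 T1 T2) {n : Fin N}
    (hn : X.P.ty n = Ty.B) {θl : ℝ} (hθl : 0 ≤ θl) (hε : (S (X.sc n)).ε ≤ θl)
    (hx : x (X.sc n) ≤ θl) :
    LB3 (bk G X.P n) d (min (S (X.sc n)).ρ (1 / 1000)) θl (sdn X.P n) (ptn X.P n)
      (Qn n) (P2n n) (Fp (xt G X) X t1 n) (fun v => c0 v.1) (fun v => c1 v.1)
      (Tn X n T1) (Tn X n T2) := by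
  have hd : (0 : ℝ) ≤ d := Nat.cast_nonneg d
  have hxd : x (X.sc n) * d ≤ θl * d := mul_le_mul_of_nonneg_right hx hd
  have hmem : ∀ (T : Finset V) (v : Ts X.P n), v ∈ Tn X n T ↔ v.1 ∈ T := fun T v => by
    simp [Tn]
  have h0 : ∀ β, ∑ b ∈ P1 d (Qn n) (P2n n), need (Fo (Tn X n T1)
      (fun v => c1 v.1) (Fp (xt G X) X t1 n)) (sdn X.P n) β b = 0 :=
    fun β => sum_eq_zero fun b hb => hO.bal n hn β b hb
  refine
    { bip := ?_, deg := deg_bkX hP (Or.inr hn) hO.inj, dgp := ?_, eqs := hP.bB n hn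
      siz := hP.bS n hn, T12 := ?_, c0Q := ?_, c1P := ?_, c2P := ?_, c1F := ?_, pc := ?_
      T1c := fun b => (hO.T1c n hn b).trans hxd, few := ?_, EX := ?_
      sgT := ?_, unm := ?_, n2 := ?_, nQ := ?_ }
  · intro v w h
    exact h.2.2.2.2 (by rw [v.2.2]; exact hn)
  · intro v i
    exact dec_irrel (p := fun (_ : DecidableEq (Ts X.P n)) =>
      |((nb (bk G X.P n) v ∩ prt (ptn X.P n) i).card : ℝ) - d / 2| ≤ θl * d)
      ((hP.bD n hn v i).trans (mul_le_mul_of_nonneg_right hε hd))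
  · rw [disjoint_left]
    intro v h1 h2
    exact disjoint_left.1 hO.T12 ((hmem _ _).1 h1) ((hmem _ _).1 h2)
  · intro v hv
    have := hO.c0Q v.1 (inT_of hn v) fun h => hv ((hmem _ _).2 h)
    rw [v.2.2] at this
    exact this
  · intro v hv
    have := hO.c1P v.1 ((hmem _ _).1 hv)
    rw [v.2.2] at this
    exact this
  · intro v hv
    have := hO.c2P v.1 ((hmem _ _).1 hv)
    rw [v.2.2] at this
    exact this
  · intro v hv
    have hv' : v.1 ∈ T1 ∨ v.1 ∈ T2 := by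
      simp only [mem_union, hmem] at hv
      exact hv
    exact hO.c1F v.1 (mem_union.2 hv')
  · intro v w hvw _
    rw [oc_Tn, oc_Tn]
    exact hO.pcc v.1 w.1 (inT_of hn v) (inT_of hn w) hvw.1
  · intro β
    rw [h0 β, Nat.cast_zero]
    positivity
  · intro β
    rw [h0 β]
    exact Nat.zero_le _
  · intro i
    exact dec_irrel (p := fun (_ : DecidableEq (Ts X.P n)) =>
      |((Tn X n T1 ∩ qtr (sdn X.P n) (ptn X.P n) false i).card : ℝ) -
        (Tn X n T1 ∩ qtr (sdn X.P n) (ptn X.P n) true i).card -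
        ((∑ b ∈ Qn n (!i) ∪ P2n n,
          sgp (Fp (xt G X) X t1 n) (sdn X.P n) (ptn X.P n) i b : ℤ) : ℝ)| ≤ θl * d)
      ((hO.sgT n hn i).trans hxd)
  · intro v
    have h1 : min (S (X.sc n)).ρ (1 / 1000) * d ≤ 1 / 1000 * d :=
      mul_le_mul_of_nonneg_right (min_le_right _ _) hd
    have h2 : min (S (X.sc n)).ρ (1 / 1000) * d ≤
        (((nb (bk G X.P n) v ∩ prt (ptn X.P n) (ptn X.P n v)) \
          (Tn X n T1 ∪ Tn X n T2)).card : ℝ) := by
      refine le_trans ?_ (hO.unm n hn v)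
      linarith
    exact dec_irrel (p := fun (_ : DecidableEq (Ts X.P n)) =>
      min (S (X.sc n)).ρ (1 / 1000) * d ≤
        (((nb (bk G X.P n) v ∩ prt (ptn X.P n) (ptn X.P n v)) \
          (Tn X n T1 ∪ Tn X n T2)).card : ℝ)) h2
  · intro i b hb
    exact hO.n2 n hn i b hb
  · intro i b hb
    exact hO.nQ n hn i b hb

/-- signed numbers with and without own colours -/
theorem sgp_Fpo {G : SimpleGraph V} {X : XD V N J} {t : V → V → ℕ} {c : V → ℕ} {n : Fin N} {b : ℕ}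
    (h : ∀ v : Ts X.P n, c v.1 ≠ b) (i : Bool) :
    sgp (Fpo (xt G X) X t c n) (sdn X.P n) (ptn X.P n) i b =
      sgp (Fp (xt G X) X t n) (sdn X.P n) (ptn X.P n) i b := by
  have e : us (Fpo (xt G X) X t c n) b = us (Fp (xt G X) X t n) b := by
    ext v
    rw [mem_us, mem_us]
    unfold Fpo Fp
    rw [mem_insert]
    constructor
    · rintro (h1 | h1)
      · exact absurd h1.symm (h v)
      · exact h1
    · exact Or.inr
  unfold sgp
  rw [e]

theorem abs_sgp_le {Y : Type u} [Fintype Y] (F : Y → Finset ℕ) (sd pt : Y → Bool) (i : Bool)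
    (b : ℕ) : |((sgp F sd pt i b : ℤ) : ℝ)| ≤ ((us F b).card : ℝ) := by
  have h1 : ((qtr sd pt false i ∩ us F b).card : ℝ) ≤ ((us F b).card : ℝ) := by
    exact_mod_cast card_le_card inter_subset_right
  have h2 : ((qtr sd pt true i ∩ us F b).card : ℝ) ≤ ((us F b).card : ℝ) := by
    exact_mod_cast card_le_card inter_subset_right
  have h3 := Nat.cast_nonneg (α := ℝ) (qtr sd pt false i ∩ us F b).card
  have h4 := Nat.cast_nonneg (α := ℝ) (qtr sd pt true i ∩ us F b).card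
  unfold sgp
  push_cast
  rw [abs_le]
  constructor
  · linarith
  · linarith

/-- `LI3` for a piece of type N -/
theorem LI_N {C g z θk θ' η a a' τ e e1 : ℝ} {M : ℕ} {S : Fin J → Scl} {G : SimpleGraph V}
    {d : ℕ} {X : XD V N J} {A : PalX} {t : V → V → ℕ} {cR c : V → ℕ} {x1 : Fin J → ℝ}
    {Qn : Fin N → Bool → Finset ℕ} {P2n : Fin N → Finset ℕ}
    (hP : PcX C g z θk θ' η a M S G d X) (hR : RgX C a' η τ e1 S G d X A t cR)
    (hS : SelX g x1 S G d X t cR Qn P2n) (hN : OwnX τ e S G d X t cR Qn P2n c)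
    (hC : 1 ≤ C) {n : Fin N} (hn : X.P.ty n = Ty.N)
    {θl : ℝ} (hζ : (S (X.sc n)).ζ ≤ θl / 2) (hd1 : 1 ≤ θl / 2 * d)
    (hθ0 : 0 ≤ (S (X.sc n)).θ) (hθ : (S (X.sc n)).θ ≤ θl / 201) (hx : x1 (X.sc n) ≤ θl)
    {ηl : ℝ} (hη : g / 400 ≤ ηl) :
    LI3 (bk G X.P n) d C (S (X.sc n)).ρ (S (X.sc n)).π (S (X.sc n)).κ θl ηl (sdn X.P n)
      (ptn X.P n) (Qn n) (P2n n) (Fpo (xt G X) X t c n) ∧
    ∀ i, |((∑ b ∈ Qn n (!i) ∪ P2n n, sgp (Fpo (xt G X) X t c n) (sdn X.P n) (ptn X.P n) i b : ℤ) :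
      ℝ)| ≤ θl * d := by
  have hd : (0 : ℝ) ≤ d := Nat.cast_nonneg d
  have hown : ∀ v : Ts X.P n, Owd X v.1 := fun v => Or.inr (inT_of hn v)
  have hpv : ∀ v : Ts X.P n, v.1 ∈ pV X.P n := fun v => by
    unfold pV
    rw [mem_filter]
    exact ⟨mem_univ _, v.2.1, v.2.2⟩
  have hne : ∀ i, ∀ b ∈ Qn n (!i) ∪ P2n n, ∀ v : Ts X.P n, c v.1 ≠ b := by
    intro i b hb v h
    have := hN.nP n hn v.1 (hpv v)
    rw [h] at this
    rcases mem_union.1 hb with h1 | h1
    · exact this.2 _ h1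
    · exact this.1 h1
  have hsg : ∀ i, ∀ b ∈ Qn n (!i) ∪ P2n n,
      sgp (Fpo (xt G X) X t c n) (sdn X.P n) (ptn X.P n) i b =
        sgp (Fp (xt G X) X t n) (sdn X.P n) (ptn X.P n) i b := fun i b hb =>
    sgp_Fpo (hne i b hb) i
  have hlt : ∀ i, ∀ b ∈ Qn n (!i) ∪ P2n n, b ∈ range (d + 2) := by
    intro i b hb
    rcases mem_union.1 hb with h1 | h1
    · exact hS.Qlt n (Or.inl hn) _ h1
    · exact hS.Plt n (Or.inl hn) h1
  refine ⟨
    { VC := card_TsX hP (by linarith) n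
      Flt := ?_
      Fx := ?_
      load := ?_
      Qlt := hS.Qlt n (Or.inl hn)
      Plt := hS.Plt n (Or.inl hn)
      QQ := hS.QQ n (Or.inl hn)
      QP := hS.QP n (Or.inl hn)
      Qc := hS.Qc n (Or.inl hn)
      Pc := hS.Pc n (Or.inl hn)
      FQ := ?_
      sgQ := ?_
      sl1 := ?_
      cutG := fun T => dec_irrel (p := fun (_ : DecidableEq (Ts X.P n)) =>
        (S (X.sc n)).ρ * T.card * (univ \ T).card ≤
          ∑ v ∈ T, ((nb (bk G X.P n) v \ T).card : ℝ)) (hP.cut n (Or.inl hn) T)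
      cutP := fun i T hT => dec_irrel (p := fun (_ : DecidableEq (Ts X.P n)) =>
        (S (X.sc n)).ρ * T.card * (prt (ptn X.P n) i \ T).card ≤
          ∑ v ∈ T, (((nb (bk G X.P n) v \ T) ∩
            qtr (sdn X.P n) (ptn X.P n) (!(sdn X.P n v)) i).card : ℝ))
              (hP.cutP n (Or.inl hn) i T hT) }, ?_⟩
  · intro v b hb
    unfold Fpo at hb
    rcases mem_insert.1 hb with rfl | hb
    · exact hN.clt _ (hown v)
    · exact Ft_lt hR.lt v.1 b hb
  · intro v
    have h1 : (Fpo (xt G X) X t c n v).card ≤ (Fp (xt G X) X t n v).card + 1 := by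
      unfold Fpo Fp
      exact card_insert_le _ _
    have h2 := card_FpX hP (Or.inl hn) (t := t) v
    have h3 : ((Fpo (xt G X) X t c n v).card : ℝ) ≤ (Fp (xt G X) X t n v).card + 1 := by
      exact_mod_cast h1
    have h4 : (S (X.sc n)).ζ * d ≤ θl / 2 * d := mul_le_mul_of_nonneg_right hζ hd
    linarith
  · intro b
    have h1 := hR.ld n (Or.inl hn) b
    have h2 := hN.ldN n hn b
    have h3 : (us (Fpo (xt G X) X t c n) b).card ≤ (us (Fp (xt G X) X t n) b).card +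
        ((pV X.P n).filter (fun v => c v = b)).card := by
      have h4 : (us (Fpo (xt G X) X t c n) b) ⊆ us (Fp (xt G X) X t n) b ∪
          univ.filter (fun v : Ts X.P n => c v.1 = b) := by
        intro v hv
        rw [mem_us] at hv
        unfold Fpo at hv
        rw [mem_insert] at hv
        rw [mem_union, mem_us, mem_filter]
        rcases hv with hv | hv
        · exact Or.inr ⟨mem_univ _, hv.symm⟩
        · exact Or.inl hv
      have h5 : (univ.filter (fun v : Ts X.P n => c v.1 = b)).card ≤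
          ((pV X.P n).filter (fun v => c v = b)).card := by
        refine card_le_card_of_injOn Subtype.val ?_ (Subtype.val_injective.injOn)
        intro v hv
        rw [mem_coe, mem_filter] at hv ⊢
        exact ⟨hpv v, hv.2⟩
      exact (card_le_card h4).trans ((card_union_le _ _).trans (by omega))
    have h6 : ((us (Fpo (xt G X) X t c n) b).card : ℝ) ≤ (us (Fp (xt G X) X t n) b).card +
        ((pV X.P n).filter (fun v => c v = b)).card := by exact_mod_cast h3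
    have h7 : (S (X.sc n)).θ * d ≤ θl / 201 * d := mul_le_mul_of_nonneg_right hθ hd
    nlinarith
  · intro v
    rw [disjoint_left]
    intro b hb hb'
    unfold Fpo at hb
    rcases mem_insert.1 hb with rfl | hb
    · exact (hN.nP n hn v.1 (hpv v)).2 _ hb'
    · exact disjoint_left.1 (hS.rQn n (Or.inl hn) v) hb hb'
  · intro i b hb
    rw [hsg i b hb]
    have h3 := hR.ld n (Or.inl hn) b
    have h4 : 200 * (S (X.sc n)).θ * d ≤ θl * d :=
      mul_le_mul_of_nonneg_right (by linarith) hd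
    exact (abs_sgp_le _ _ _ i b).trans (h3.trans h4)
  · intro i
    rw [sum_congr rfl fun b hb => by rw [hsg i b hb]]
    exact (hS.lN n hn i).trans (mul_le_mul_of_nonneg_right hη hd)
  · intro i
    rw [sum_congr rfl fun b hb => hsg i b hb]
    exact (hS.sm n (Or.inl hn) i).trans (mul_le_mul_of_nonneg_right hx hd)

/-- `LN` -/
theorem LN_N {C g z θk θ' η a a' τ e e1 : ℝ} {M : ℕ} {S : Fin J → Scl} {G : SimpleGraph V}
    {d : ℕ} {X : XD V N J} {A : PalX} {t : V → V → ℕ} {cR c : V → ℕ}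
    {Qn : Fin N → Bool → Finset ℕ} {P2n : Fin N → Finset ℕ}
    (hP : PcX C g z θk θ' η a M S G d X) (hR : RgX C a' η τ e1 S G d X A t cR)
    (hN : OwnX τ e S G d X t cR Qn P2n c) {n : Fin N} (hn : X.P.ty n = Ty.N)
    {θl : ℝ} (hε : (S (X.sc n)).ε ≤ θl) :
    LN (bk G X.P n) d (g / 2) (S (X.sc n)).ρ θl (sdn X.P n) (ptn X.P n)
      (Fpo (xt G X) X t c n) := by
  have hd : (0 : ℝ) ≤ d := Nat.cast_nonneg d
  refine
    { Vl := hP.nL n hn
      deg := ?_
      dgp := fun v β i => dec_irrel (p := fun (_ : DecidableEq (Ts X.P n)) =>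
        |((nb (bk G X.P n) v ∩ qtr (sdn X.P n) (ptn X.P n) β i).card : ℝ) - d / 4| ≤ θl * d)
        ((hP.nD n hn v β i).trans (mul_le_mul_of_nonneg_right hε hd))
      siz := hP.nS n hn
      nbi := fun T => dec_irrel (p := fun (_ : DecidableEq (Ts X.P n)) =>
        (S (X.sc n)).ρ * (d : ℝ) ^ 2 ≤ ∑ v ∈ T, ((nb (bk G X.P n) v ∩ T).card : ℝ) +
          ∑ v ∈ univ \ T, ((nb (bk G X.P n) v \ T).card : ℝ)) (hP.nbi n hn T) }
  intro v
  have h1 := deg_bkX hP (Or.inl hn) hR.inj v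
  have h2 : (Fpo (xt G X) X t c n v).card = (Fp (xt G X) X t n v).card + 1 := by
    unfold Fpo Fp
    exact card_insert_of_notMem (hN.ct v.1 (Or.inr (inT_of hn v)))
  omega

end

end Pool.Agent.Work.MP_db9399_xf
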