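import Pool.Agent.Work.MP_db9399_xf_helper62.XFrame
import Pool.Agent.Work.MP_db9399_da_helper62.Glue

/-!
# MP_db9399, all scales: assembly of BX, gluing (helper62)
-/

set_option autoImplicit false
set_option linter.unusedSectionVars false

namespace Pool.Agent.Work.MP_db9399_xf

open Finset Classical
open Pool.Agent.Work.MP_db9399_all (nb)
open Pool.Agent.Work.MP_db9399_nc (nn)
open Pool.Agent.Work.MP_db9399_lt (us)
open Pool.Agent.Work.MP_db9399_da
open Pool.Agent.Work.MP_db9399_da.helper62 (mem_nb mem_us gl gl_eq)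

universe u

section
variable {V : Type u} [Fintype V] {N J : ℕ}

theorem mem_Ft {T : SimpleGraph V} {t : V → V → ℕ} {v w : V} (h : T.Adj v w) :
    t v w ∈ Ft T t v := mem_image_of_mem _ ((mem_nb T v w).2 h)

theorem Ft_congr {T T' : SimpleGraph V} {t t' : V → V → ℕ} {v : V}
    (h : ∀ w, T.Adj v w ↔ T'.Adj v w) (h' : ∀ w, T.Adj v w → t v w = t' v w) :
    Ft T t v = Ft T' t' v := by
  have e : nb T v = nb T' v := by
    ext w
    rw [mem_nb, mem_nb]
    exact h w
  unfold Ft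
  rw [← e]
  refine image_congr ?_
  intro w hw
  rw [mem_coe, mem_nb] at hw
  exact h' w hw

/-- the type of a vertex -/
theorem ty_cases {C g z θk θ' η a : ℝ} {M : ℕ} {S : Fin J → Scl} {G : SimpleGraph V} {d : ℕ}
    {X : XD V N J} (hP : PcX C g z θk θ' η a M S G d X) (v : V) :
    Owd X v ∨ InT X Ty.B v ∨ InT X Ty.K v := by
  by_cases h0 : v ∈ X.P.V0
  · exact Or.inl (Or.inl h0)
  · rcases hty : X.P.ty (X.P.pc v) with _ | _ | _ | _
    · exact ((hP.emp _ hty).false ⟨v, h0, rfl⟩).elim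
    · exact Or.inr (Or.inr ⟨h0, hty⟩)
    · exact Or.inl (Or.inr ⟨h0, hty⟩)
    · exact Or.inr (Or.inl ⟨h0, hty⟩)

theorem ty_uni {X : XD V N J} {T T' : Ty} {v : V} (h : InT X T v) (h' : InT X T' v) : T = T' :=
  h.2.symm.trans h'.2

theorem owd_not {X : XD V N J} {v : V} (h : Owd X v) : ¬ InT X Ty.K v ∧ ¬ InT X Ty.B v := by
  rcases h with h | h
  · exact ⟨fun h' => h'.1 h, fun h' => h'.1 h⟩
  · exact ⟨fun h' => by simpa using ty_uni h h', fun h' => by simpa using ty_uni h h'⟩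

/-- the edges of `xo` at a vertex of type K -/
theorem xo_K {G : SimpleGraph V} {X : XD V N J} {v : V} (hv : InT X Ty.K v) (w : V) :
    (xo G X).Adj v w ↔ (xt G X).Adj v w := by
  constructor
  · rintro ⟨h1, h2⟩
    refine ⟨⟨h1, fun h3 => ?_⟩, fun h3 => ?_⟩
    · have hw : InT X Ty.K w := ⟨h3.2.2.1, by rw [← h3.2.2.2.1]; exact hv.2⟩
      exact h2 ⟨hv, hw, Or.inl h3.2.2.2.1⟩
    · exact h2 ⟨h3.1.1, h3.2.1, Or.inr ⟨h3.1.2, h3.2.2⟩⟩
  · rintro ⟨⟨h1, h2⟩, h3⟩
    refine ⟨h1, fun h4 => ?_⟩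
    rcases h4.2.2 with h5 | h5
    · apply h2
      refine ⟨h1, hv.1, h4.2.1.1, h5, fun h6 => ?_⟩
      rw [hv.2] at h6
      exact absurd h6 (by decide)
    · exact h3 ⟨⟨hv, h5.1⟩, ⟨h4.2.1, h5.2⟩⟩

/-- thin edges of `xo` are in `xt` -/
theorem xt_of_xo {G : SimpleGraph V} {X : XD V N J} {v w : V} (h : (xo G X).Adj v w)
    (hb : ¬ (bulk G X.P).Adj v w) : (xt G X).Adj v w :=
  ⟨⟨h.1, hb⟩, fun h' => h.2 ⟨h'.1.1, h'.2.1, Or.inr ⟨h'.1.2, h'.2.2⟩⟩⟩

theorem xo_of_xt {G : SimpleGraph V} {X : XD V N J} {v w : V} (h : (xt G X).Adj v w) :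
    (xo G X).Adj v w := by
  refine ⟨h.1.1, fun h' => ?_⟩
  rcases h'.2.2 with h5 | h5
  · apply h.1.2
    refine ⟨h.1.1, h'.1.1, h'.2.1.1, h5, fun h6 => ?_⟩
    rw [h'.1.2] at h6
    exact absurd h6 (by decide)
  · exact h.2 ⟨⟨h'.1, h5.1⟩, ⟨h'.2.1, h5.2⟩⟩

/-- Gluing: `c2` own colours outside the pieces of type K, `s n` colours of the bulk edges of the
piece `n`. -/
theorem glueX {C g z θk θ' η a a' : ℝ} {M : ℕ} {S : Fin J → Scl} {G : SimpleGraph V} {d : ℕ}
    {X : XD V N J} {A : PalX} {t t1 : V → V → ℕ} {cR c c0 c1 : V → ℕ} {T1 T2 : Finset V}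
    {τ e x0 e1 : ℝ} {x x1 : Fin J → ℝ} {Qn : Fin N → Bool → Finset ℕ} {P2n : Fin N → Finset ℕ}
    (hP : PcX C g z θk θ' η a M S G d X)
    (hR : RgX C a' η τ e1 S G d X A t cR) (hS : SelX g x1 S G d X t cR Qn P2n)
    (hN : OwnX τ x0 S G d X t cR Qn P2n c)
    (hO : OcbX τ e x S G d X t c Qn P2n t1 c0 c1 T1 T2) (hζ : ∀ s, (S s).ζ < τ) (hd0 : 0 < d)
    (cB : ∀ n, Ts X.P n → ℕ) (s : ∀ n, Ts X.P n → Ts X.P n → ℕ)
    (hsym : ∀ n v w, s n v w = s n w v)
    (hcB : ∀ n, X.P.ty n = Ty.B → ∀ v, cB n v ∈ oc c0 c1 T1 T2 v.1)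
    (hsB : ∀ n, X.P.ty n = Ty.B →
      PEF (bk G X.P n) d (fun v => insert (cB n v) (Fp (xt G X) X t1 n v)) (s n))
    (hsN : ∀ n, X.P.ty n = Ty.N → PEF (bk G X.P n) d (Fpo (xt G X) X t1 c n) (s n)) :
    ∃ (t2 : V → V → ℕ) (c2 : V → ℕ), PosX η τ (x0 + e) G d X A t2 c2 ∧
      (∀ v w, (xt G X).Adj v w → ¬ (InT X Ty.B v ∧ InT X Ty.B w) → t2 v w = t v w) ∧
      ∀ v, Owd X v → c2 v = c v := by
  set t2 : V → V → ℕ := fun v w => if (bulk G X.P).Adj v w then gl X.P s v w else t1 v w with ht2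
  set c2 : V → ℕ := fun v => if h : InT X Ty.B v then cB (X.P.pc v) ⟨v, h.1, rfl⟩ else c v
    with hc2
  have e1 : ∀ v w, (bulk G X.P).Adj v w → t2 v w = gl X.P s v w := fun v w h => by
    simp only [ht2, h, if_true]
  have e2 : ∀ v w, ¬ (bulk G X.P).Adj v w → t2 v w = t1 v w := fun v w h => by
    simp only [ht2, h, if_false]
  have eO : ∀ v, Owd X v → c2 v = c v := fun v hv => by
    simp only [hc2]
    rw [dif_neg (owd_not hv).2]
  have eB : ∀ n, X.P.ty n = Ty.B → ∀ v : Ts X.P n, c2 v.1 = cB n v := by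
    rintro n hn ⟨v, hv0, rfl⟩
    simp only [hc2]
    rw [dif_pos (show InT X Ty.B v from ⟨hv0, hn⟩)]
  have eoc : ∀ v, InT X Ty.B v → c2 v ∈ oc c0 c1 T1 T2 v := by
    intro v hv
    have := hcB _ hv.2 ⟨v, hv.1, rfl⟩
    rw [← eB _ hv.2 ⟨v, hv.1, rfl⟩] at this
    exact this
  -- the new thin colours
  have hxt2 : ∀ v w, (xt G X).Adj v w → t2 v w = t1 v w := fun v w h => e2 v w h.1.2
  have hFt2 : ∀ v, Ft (xt G X) t2 v = Ft (xt G X) t1 v := fun v =>
    Ft_congr (fun _ => Iff.rfl) fun w h => hxt2 v w h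
  have hFtn : ∀ v, ¬ InT X Ty.B v → Ft (xt G X) t1 v = Ft (xt G X) t v := fun v hv =>
    Ft_congr (fun _ => Iff.rfl) fun w h => hO.teq v w h fun h' => hv h'.1
  -- bulk edges of xo
  have hbulk : ∀ v w, (xo G X).Adj v w → (bulk G X.P).Adj v w →
      ∃ (n : Fin N) (a b : Ts X.P n), a.1 = v ∧ b.1 = w ∧ (bk G X.P n).Adj a b ∧
        t2 v w = s n a b ∧ (X.P.ty n = Ty.B ∨ X.P.ty n = Ty.N) := by
    intro v w ho h
    refine ⟨X.P.pc v, ⟨v, h.2.1, rfl⟩, ⟨w, h.2.2.1, h.2.2.2.1.symm⟩, rfl, rfl, h, ?_, ?_⟩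
    · rw [e1 v w h]
      exact gl_eq X.P s (X.P.pc v) ⟨v, h.2.1, rfl⟩ ⟨w, h.2.2.1, h.2.2.2.1.symm⟩
    · rcases ty_cases hP v with h1 | h1 | h1
      · rcases h1 with h1 | h1
        · exact absurd h1 h.2.1
        · exact Or.inr h1.2
      · exact Or.inl h1.2
      · exfalso
        have hw : InT X Ty.K w := ⟨h.2.2.1, by rw [← h.2.2.2.1]; exact h1.2⟩
        exact ho.2 ⟨h1, hw, Or.inl h.2.2.2.1⟩
  have hbF : ∀ v w, (xo G X).Adj v w → (bulk G X.P).Adj v w →
      t2 v w < d + 2 ∧ t2 v w ≠ c2 v ∧ t2 v w ∉ Ft (xt G X) t1 v := by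
    intro v w ho h
    obtain ⟨n, a, b, rfl, rfl, hab, he, hn⟩ := hbulk v w ho h
    rw [he]
    rcases hn with hn | hn
    · have := (hsB n hn).2.1 a b hab
      rw [mem_insert, not_or] at this
      rw [eB n hn a]
      exact ⟨this.1, this.2.1, this.2.2⟩
    · have := (hsN n hn).2.1 a b hab
      have ha : Owd X a.1 := Or.inr ⟨a.2.1, by rw [a.2.2]; exact hn⟩
      unfold Fpo at this
      rw [mem_insert, not_or] at this
      rw [eO a.1 ha]
      exact ⟨this.1, this.2.1, this.2.2⟩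
  -- own colours
  have hocl : ∀ v, InT X Ty.B v → ∀ b ∈ oc c0 c1 T1 T2 v, b < d + 2 ∧
      b ∉ Ft (xt G X) t1 v := by
    intro v hv b hb
    have hQ : ∀ i, Qn (X.P.pc v) i ⊆ range (d + 2) := hS.Qlt _ (Or.inr hv.2)
    have hP2 : P2n (X.P.pc v) ⊆ range (d + 2) := hS.Plt _ (Or.inr hv.2)
    have h0 : v ∉ T1 → c0 v < d + 2 ∧ c0 v ∉ Ft (xt G X) t1 v := by
      intro h1
      have h2 := hO.c0Q v hv h1
      refine ⟨mem_range.1 (hQ _ h2), fun h3 => ?_⟩
      exact disjoint_left.1 (hO.rB _ hv.2 ⟨v, hv.1, rfl⟩) h3 h2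
    have h1 : v ∈ T1 ∪ T2 → c1 v < d + 2 ∧ c1 v ∉ Ft (xt G X) t1 v := by
      intro h1
      refine ⟨?_, hO.c1F v h1⟩
      rcases mem_union.1 h1 with h1 | h1
      · exact mem_range.1 (sdiff_subset (hO.c1P v h1))
      · rcases mem_union.1 (hO.c2P v h1).2 with h2 | h2
        · exact mem_range.1 (hP2 h2)
        · exact mem_range.1 (hQ _ h2)
    unfold oc at hb
    by_cases k1 : v ∈ T1
    · rw [if_pos k1, mem_singleton] at hb
      rw [hb]
      exact h1 (mem_union_left _ k1)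
    · rw [if_neg k1] at hb
      by_cases k2 : v ∈ T2
      · rw [if_pos k2, mem_insert, mem_singleton] at hb
        rcases hb with rfl | rfl
        · exact h0 k1
        · exact h1 (mem_union_right _ k2)
      · rw [if_neg k2, mem_singleton] at hb
        rw [hb]
        exact h0 k1
  have hcl : ∀ v, ¬ InT X Ty.K v → c2 v < d + 2 ∧ c2 v ∉ Ft (xt G X) t1 v := by
    intro v hv
    rcases ty_cases hP v with h1 | h1 | h1
    · rw [eO v h1, hFtn v (owd_not h1).2]
      exact ⟨hN.clt v h1, hN.ct v h1⟩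
    · exact hocl v h1 _ (eoc v h1)
    · exact absurd h1 hv
  have hFto : ∀ v, InT X Ty.K v → Ft (xo G X) t2 v = Ft (xt G X) t v := by
    intro v hv
    have hvB : ¬ InT X Ty.B v := fun h => by simpa using ty_uni hv h
    rw [← hFtn v hvB, ← hFt2 v]
    exact Ft_congr (fun w => xo_K hv w) fun _ _ => rfl
  refine ⟨t2, c2, ?_, ?_, eO⟩
  · refine { sym := ?_, lt := ?_, inj := ?_, clt := fun v hv => (hcl v hv).1, cc := ?_, ct := ?_,
             rK := ?_, lK := ?_, dif := ?_, non := ?_ }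
    · intro v w
      by_cases h : (bulk G X.P).Adj v w
      · have k1 := gl_eq X.P s (X.P.pc v) ⟨v, h.2.1, rfl⟩ ⟨w, h.2.2.1, h.2.2.2.1.symm⟩
        have k2 := gl_eq X.P s (X.P.pc v) ⟨w, h.2.2.1, h.2.2.2.1.symm⟩ ⟨v, h.2.1, rfl⟩
        rw [e1 v w h, e1 w v h.symm]
        simp only at k1 k2
        rw [k1, k2, hsym]
      · have h' : ¬ (bulk G X.P).Adj w v := fun h' => h h'.symm
        rw [e2 v w h, e2 w v h']
        exact hO.sym v w
    · intro v w h
      by_cases hb : (bulk G X.P).Adj v w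
      · exact (hbF v w h hb).1
      · rw [e2 v w hb]
        exact hO.lt v w (xt_of_xo h hb)
    · intro v w hw w' hw' he
      rw [mem_coe, mem_nb] at hw hw'
      by_cases h : (bulk G X.P).Adj v w
      · by_cases h' : (bulk G X.P).Adj v w'
        · have k1 := gl_eq X.P s (X.P.pc v) ⟨v, h.2.1, rfl⟩ ⟨w, h.2.2.1, h.2.2.2.1.symm⟩
          have k2 := gl_eq X.P s (X.P.pc v) ⟨v, h.2.1, rfl⟩ ⟨w', h'.2.2.1, h'.2.2.2.1.symm⟩
          rw [e1 v w h, e1 v w' h'] at he
          simp only at k1 k2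
          rw [k1, k2] at he
          obtain ⟨_, _, _, _, _, _, _, hn⟩ := hbulk v w hw h
          have hi : Set.InjOn (s (X.P.pc v) ⟨v, h.2.1, rfl⟩)
              (nb (bk G X.P (X.P.pc v)) ⟨v, h.2.1, rfl⟩ : Set (Ts X.P (X.P.pc v))) := by
            rcases ty_cases hP v with h1 | h1 | h1
            · rcases h1 with h1 | h1
              · exact absurd h1 h.2.1
              · exact (hsN _ h1.2).2.2 _
            · exact (hsB _ h1.2).2.2 _
            · exfalso
              have hw1 : InT X Ty.K w := ⟨h.2.2.1, by rw [← h.2.2.2.1]; exact h1.2⟩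
              exact hw.2 ⟨h1, hw1, Or.inl h.2.2.2.1⟩
          have := @hi ⟨w, h.2.2.1, h.2.2.2.1.symm⟩ (by rw [mem_coe, mem_nb]; exact h)
            ⟨w', h'.2.2.1, h'.2.2.2.1.symm⟩ (by rw [mem_coe, mem_nb]; exact h') he
          exact congrArg Subtype.val this
        · exfalso
          rw [e2 v w' h'] at he
          apply (hbF v w hw h).2.2
          rw [he]
          exact mem_Ft (xt_of_xo hw' h')
      · by_cases h' : (bulk G X.P).Adj v w'
        · exfalso
          rw [e2 v w h] at he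
          apply (hbF v w' hw' h').2.2
          rw [← he]
          exact mem_Ft (xt_of_xo hw h)
        · rw [e2 v w h, e2 v w' h'] at he
          apply hO.inj v _ _ he
          · rw [mem_coe, mem_nb]; exact xt_of_xo hw h
          · rw [mem_coe, mem_nb]; exact xt_of_xo hw' h'
    · intro v w hv hw hvw
      rcases ty_cases hP v with h1 | h1 | h1
      · rcases ty_cases hP w with h2 | h2 | h2
        · rw [eO v h1, eO w h2]
          exact hN.cc v w h1 h2 hvw
        · rw [eO v h1]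
          intro h3
          apply hO.pco w v h2 h1 hvw.symm
          rw [h3]
          exact eoc w h2
        · exact absurd h2 hw
      · rcases ty_cases hP w with h2 | h2 | h2
        · rw [eO w h2]
          intro h3
          apply hO.pco v w h1 h2 hvw
          rw [← h3]
          exact eoc v h1
        · intro h3
          have := hO.pcc v w h1 h2 hvw
          exact disjoint_left.1 this (eoc v h1) (by rw [h3]; exact eoc w h2)
        · exact absurd h2 hw
      · exact absurd h1 hv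
    · intro v hv h
      obtain ⟨w, hw, he⟩ := mem_image.1 h
      rw [mem_nb] at hw
      by_cases hb : (bulk G X.P).Adj v w
      · exact (hbF v w hw hb).2.1 he
      · rw [e2 v w hb] at he
        apply (hcl v hv).2
        rw [← he]
        exact mem_Ft (xt_of_xo hw hb)
    · intro v hv
      rw [hFto v hv.1]
      exact hR.rK v hv
    · intro n hn b
      refine le_trans (le_of_eq ?_) (hR.lK n hn b)
      congr 2
      refine filter_congr fun v hv => ?_
      have hv' : v ∉ X.P.V0 ∧ X.P.pc v = n := by simpa [pV] using hv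
      rw [hFto v ⟨hv'.1, by rw [hv'.2]; exact hn⟩]
    · intro n hn w w' hw hw' hne h1 h2
      -- vertices of pieces of type B have few neighbours outside
      have hub : ∀ w, InT X Ty.B w → ¬ τ * d ≤ ((nb G w ∩ pV X.P n).card : ℝ) := by
        intro w hw h
        have k1 : nb G w ∩ pV X.P n ⊆ nb (thin G X.P) w := by
          intro v hv
          obtain ⟨v1, v2⟩ := mem_inter.1 hv
          rw [mem_nb] at v1 ⊢
          have v3 : v ∉ X.P.V0 ∧ X.P.pc v = n := by simpa [pV] using v2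
          refine ⟨v1, fun h5 => ?_⟩
          have h6 := h5.2.2.2.1
          rw [v3.2] at h6
          have h7 := hw.2
          rw [h6, hn] at h7
          exact absurd h7 (by decide)
        have k2 := card_le_card k1
        have k3 := hP.thd w (Or.inr hw)
        have k4 : ((nb G w ∩ pV X.P n).card : ℝ) ≤ (nb (thin G X.P) w).card := by exact_mod_cast k2
        have k5 := hζ (X.sc (X.P.pc w))
        have k6 : (0 : ℝ) < d := by exact_mod_cast hd0
        nlinarith
      rcases ty_cases hP w with k1 | k1 | k1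
      · rcases ty_cases hP w' with k2 | k2 | k2
        · rw [eO w k1, eO w' k2]
          exact hN.dif n hn w w' k1 k2 hne h1 h2
        · exact absurd h2 (hub w' k2)
        · exact absurd k2 hw'
      · exact absurd h1 (hub w k1)
      · exact absurd k1 hw
    · intro n hn b
      have h1 := hN.non n hn b
      have h2 := hO.non n hn b
      have h3 : (univ.filter (fun w => ¬ InT X Ty.K w ∧ c2 w = b ∧
          ((nb G w ∩ pV X.P n).card : ℝ) < τ * d)) ⊆
          (univ.filter (fun w => Owd X w ∧ c w = b ∧ ((nb G w ∩ pV X.P n).card : ℝ) < τ * d)) ∪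
          univ.filter (fun w => InT X Ty.B w ∧ b ∈ oc c0 c1 T1 T2 w ∧
            ((nb G w ∩ pV X.P n).card : ℝ) < τ * d) := by
        intro w hw
        obtain ⟨_, w1, w2, w3⟩ := mem_filter.1 hw
        rcases ty_cases hP w with k1 | k1 | k1
        · exact mem_union_left _ (mem_filter.2 ⟨mem_univ _, k1, by rw [← eO w k1]; exact w2, w3⟩)
        · exact mem_union_right _ (mem_filter.2 ⟨mem_univ _, k1, by rw [← w2]; exact eoc w k1, w3⟩)
        · exact absurd k1 w1
      have h4 : (∑ w ∈ univ.filter (fun w => ¬ InT X Ty.K w ∧ c2 w = b ∧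
          ((nb G w ∩ pV X.P n).card : ℝ) < τ * d), (nb G w ∩ pV X.P n).card) ≤
          (∑ w ∈ univ.filter (fun w => Owd X w ∧ c w = b ∧
            ((nb G w ∩ pV X.P n).card : ℝ) < τ * d), (nb G w ∩ pV X.P n).card) +
          ∑ w ∈ univ.filter (fun w => InT X Ty.B w ∧ b ∈ oc c0 c1 T1 T2 w ∧
            ((nb G w ∩ pV X.P n).card : ℝ) < τ * d), (nb G w ∩ pV X.P n).card := by
        refine (sum_le_sum_of_subset h3).trans ?_
        have := sum_union_inter (s₁ := univ.filter (fun w => Owd X w ∧ c w = b ∧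
          ((nb G w ∩ pV X.P n).card : ℝ) < τ * d)) (s₂ := univ.filter (fun w => InT X Ty.B w ∧
          b ∈ oc c0 c1 T1 T2 w ∧ ((nb G w ∩ pV X.P n).card : ℝ) < τ * d))
          (f := fun w => (nb G w ∩ pV X.P n).card)
        omega
      have h5 : ((∑ w ∈ univ.filter (fun w => ¬ InT X Ty.K w ∧ c2 w = b ∧
          ((nb G w ∩ pV X.P n).card : ℝ) < τ * d), (nb G w ∩ pV X.P n).card : ℕ) : ℝ) ≤ _ :=
        Nat.cast_le.2 h4
      rw [Nat.cast_add] at h5
      linarith
  · intro v w h hb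
    rw [hxt2 v w h]
    exact hO.teq v w h hb

end

end Pool.Agent.Work.MP_db9399_xf
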