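import Pool.Agent.Work.MP_db9399_xf_helper62.BX3
import Pool.Agent.Work.MP_db9399_iv_helper72.LOCB3
import Pool.Agent.Work.MP_db9399_iv_helper72.LOCN3

/-!
# MP_db9399, all scales: `Stmt_BX` from `Stmt_RGX`, `Stmt_SELP`, `Stmt_OWNX`, `Stmt_OCB` (helper62)
-/

set_option autoImplicit false

namespace Pool.Agent.Work.MP_db9399_xf

open Pool.Agent.Work.MP_db9399_iv_helper72

universe u

theorem stmt_BX' (hR : Stmt_RGX.{u}) (hS : Stmt_SELP.{u}) (hW : Stmt_OWNX.{u})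
    (hO : Stmt_OCB.{u}) : Stmt_BX.{u} := stmt_BX hR hS hW hO stmt_LOCB3 stmt_LOCN3

end Pool.Agent.Work.MP_db9399_xf
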